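import Pool.Agent.V5helper75.BR.Q1
import Pool.Agent.V5helper75.BK.Raag

/-!
# Right-angled Artin groups and right-angled Coxeter groups (after Davis and Januszkiewicz)

The right-angled Artin group of `G` and the right-angled Coxeter group of the octahedralization of `G` are both subgroups
of finite index of `A ⋊ (ℤ/2)^V`, where the generators of `(ℤ/2)^V` invert the generators of `A`.
-/

set_option autoImplicit false
set_option linter.unusedSectionVars false

noncomputable section

namespace Pool.Agent.V5helper75.BR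

open Pool.Agent.W907.SG Pool.Agent.W907.SM Pool.Agent.W461.SGN Pool.Agent.N496.CV Pool.Agent.V5helper75.BK
open Pool.Agent.V5helper75.VO

/-- automorphisms from endomorphisms -/
theorem mkAut {S A : Type} [Group S] [Group A] (a : S → A →* A) (h1 : ∀ x, a 1 x = x)
    (hmul : ∀ σ τ x, a (σ * τ) x = a σ (a τ x)) : ∃ φ : S →* MulAut A, ∀ σ x, φ σ x = a σ x := by
  refine ⟨{ toFun := fun σ => { toFun := a σ
                                invFun := a σ⁻¹
                                left_inv := fun x => by rw [← hmul, inv_mul_cancel, h1]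
                                right_inv := fun x => by rw [← hmul, mul_inv_cancel, h1]
                                map_mul' := map_mul (a σ) }
            map_one' := MulEquiv.ext h1
            map_mul' := fun σ τ => MulEquiv.ext (hmul σ τ) }, fun σ x => rfl⟩

section

variable {V : Type} [Fintype V] [LinearOrder V] (G : SimpleGraph V)

/-- the inversions of the generators -/
theorem aut_raag : ∃ φ : (V → ℤˣ) →* MulAut (Raag G), ∀ σ v, φ σ (art G v) = art G v ^ ((σ v : ℤˣ) : ℤ) := by
  have h : ∀ σ : V → ℤˣ, ∃ a : Raag G →* Raag G, ∀ v, a (art G v) = art G v ^ ((σ v : ℤˣ) : ℤ) := fun σ =>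
    raag_hom (fun v => art G v ^ ((σ v : ℤˣ) : ℤ)) fun u v huv =>
      ((show Commute (art G u) (art G v) from art_comm huv).zpow_zpow _ _)
  choose a ha using h
  obtain ⟨φ, hφ⟩ := mkAut a (fun x => by
    have h1 : a 1 = MonoidHom.id _ := PresentedGroup.ext fun v => by
      show a 1 (art G v) = art G v
      rw [ha]
      simp
    rw [h1]
    rfl) (fun σ τ x => by
    have h1 : a (σ * τ) = (a σ).comp (a τ) := PresentedGroup.ext fun v => by
      show a (σ * τ) (art G v) = a σ (a τ (art G v))
      rw [ha, ha, map_zpow, ha, ← zpow_mul, Pi.mul_apply, Units.val_mul]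
    rw [h1]
    rfl)
  exact ⟨φ, fun σ v => by rw [hφ, ha]⟩

/-- a sign as an element of `Bool` -/
def fb (s : ℤˣ) (ε : Bool) : Bool := if s = 1 then ε else !ε

/-- the exponent of a copy of a vertex -/
def eb (ε : Bool) : ℤ := if ε = true then 1 else -1

theorem eb_fb (s : ℤˣ) (ε : Bool) : eb (fb s ε) = (s : ℤ) * eb ε := by
  rcases Int.units_eq_one_or s with rfl | rfl <;> cases ε <;> decide

/-- the exchange of the copies of the vertices -/
theorem aut_oct : ∃ φ : (V → ℤˣ) →* MulAut (W (oct G)), ∀ σ v ε,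
    φ σ (gen (oct G) (toLex (v, ε))) = gen (oct G) (toLex (v, fb (σ v) ε)) := by
  have h : ∀ σ : V → ℤˣ, ∃ a : W (oct G) →* W (oct G), ∀ q : V ×ₗ Bool,
      a (gen (oct G) q) = gen (oct G) (toLex ((ofLex q).1, fb (σ (ofLex q).1) (ofLex q).2)) := fun σ =>
    exists_hom (K := oct G) (fun q : V ×ₗ Bool => gen (oct G) (toLex ((ofLex q).1, fb (σ (ofLex q).1) (ofLex q).2)))
      (fun q => gen_sq _ _) fun q q' hq => gen_comm (K := oct G) hq
  choose a ha using h
  obtain ⟨φ, hφ⟩ := mkAut a (fun x => hom_ext (ρ := a 1) (τ := MonoidHom.id _) (fun q => by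
      rw [ha]
      rfl) x) (fun σ τ x => hom_ext (ρ := a (σ * τ)) (τ := (a σ).comp (a τ)) (fun q => by
      rw [ha, MonoidHom.comp_apply, ha, ha]
      congr 2
      show ((ofLex q).1, fb (σ (ofLex q).1 * τ (ofLex q).1) (ofLex q).2) =
        ((ofLex q).1, fb (σ (ofLex q).1) (fb (τ (ofLex q).1) (ofLex q).2))
      congr 1
      rcases Int.units_eq_one_or (σ (ofLex q).1) with h1 | h1 <;>
        rcases Int.units_eq_one_or (τ (ofLex q).1) with h2 | h2 <;> rw [h1, h2] <;>
        cases (ofLex q).2 <;> decide) x)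
  exact ⟨φ, fun σ v ε => by rw [hφ, ha]; rfl⟩

/-- the reflection of the vertex `v` -/
def rf (v : V) : V → ℤˣ := fun u => if u = v then -1 else 1

theorem rf_sq (v : V) : rf v * rf v = 1 := by
  funext u
  unfold rf
  rw [Pi.mul_apply, Pi.one_apply]
  split_ifs <;> simp

theorem rf_self (v : V) : rf v v = -1 := if_pos rfl

theorem rf_ne {u v : V} (h : u ≠ v) : rf v u = 1 := if_neg h

/-- **Davis and Januszkiewicz**: the right-angled Artin group of `G` and the right-angled Coxeter group of the
octahedralization of `G` are subgroups of finite index of the same group. -/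
theorem dj : ∃ (E : Type) (_ : Group E) (f : Raag G →* E) (p : W (oct G) →* E), Function.Injective f ∧
    Function.Injective p ∧ f.range.FiniteIndex ∧ p.range.FiniteIndex := by
  classical
  obtain ⟨φ, hφ⟩ := aut_raag G
  obtain ⟨χ, hχ⟩ := aut_oct G
  -- the homomorphism from the Coxeter group
  obtain ⟨ψ, hψ⟩ : ∃ ψ : W (oct G) →* Raag G ⋊[φ] (V → ℤˣ), ∀ q : V ×ₗ Bool,
      ψ (gen (oct G) q) = ⟨art G (ofLex q).1 ^ eb (ofLex q).2, rf (ofLex q).1⟩ := by
    refine exists_hom (K := oct G) (fun q : V ×ₗ Bool =>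
      (⟨art G (ofLex q).1 ^ eb (ofLex q).2, rf (ofLex q).1⟩ : Raag G ⋊[φ] (V → ℤˣ))) (fun q => ?_) fun q q' hq => ?_
    · ext1
      · show art G (ofLex q).1 ^ eb (ofLex q).2 * φ (rf (ofLex q).1) (art G (ofLex q).1 ^ eb (ofLex q).2) = 1
        rw [map_zpow, hφ, rf_self]
        simp
      · exact rf_sq _
    · have hne : (ofLex q).1 ≠ (ofLex q').1 := G.ne_of_adj hq
      have hc : Commute (art G (ofLex q).1 ^ eb (ofLex q).2) (art G (ofLex q').1 ^ eb (ofLex q').2) :=
        (show Commute (art G (ofLex q).1) (art G (ofLex q').1) from art_comm hq).zpow_zpow _ _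
      ext1
      · show art G (ofLex q).1 ^ eb (ofLex q).2 * φ (rf (ofLex q).1) (art G (ofLex q').1 ^ eb (ofLex q').2) =
          art G (ofLex q').1 ^ eb (ofLex q').2 * φ (rf (ofLex q').1) (art G (ofLex q).1 ^ eb (ofLex q).2)
        rw [map_zpow, map_zpow, hφ, hφ, rf_ne hne, rf_ne hne.symm]
        simp only [Units.val_one, zpow_one]
        exact hc
      · exact mul_comm _ _
  -- the homomorphism from the Artin group
  obtain ⟨f1, hf1⟩ : ∃ f1 : Raag G →* W (oct G) ⋊[χ] (V → ℤˣ), ∀ v,
      f1 (art G v) = ⟨gen (oct G) (toLex (v, true)), rf v⟩ := by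
    refine raag_hom (fun v => (⟨gen (oct G) (toLex (v, true)), rf v⟩ : W (oct G) ⋊[χ] (V → ℤˣ))) fun u v huv => ?_
    have hne : u ≠ v := G.ne_of_adj huv
    ext1
    · rw [SemidirectProduct.mul_left, SemidirectProduct.mul_left]
      show _ * χ (rf u) _ = _ * χ (rf v) _
      rw [hχ, hχ, rf_ne hne, rf_ne hne.symm]
      exact gen_comm (K := oct G) huv
    · exact mul_comm _ _
  have hf1' : ∀ v (s : ℤˣ), f1 (art G v) ^ ((s : ℤˣ) : ℤ) = ⟨gen (oct G) (toLex (v, fb s true)), rf v⟩ := by
    intro v s
    rcases Int.units_eq_one_or s with rfl | rfl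
    · rw [Units.val_one, zpow_one, hf1]
      rfl
    · rw [Units.val_neg, Units.val_one, zpow_neg_one, hf1]
      refine inv_eq_of_mul_eq_one_right ?_
      ext1
      · rw [SemidirectProduct.mul_left, SemidirectProduct.one_left]
        show _ * χ (rf v) _ = 1
        rw [hχ, rf_self]
        exact gen_sq _ _
      · exact rf_sq _
  let θ1 : Raag G ⋊[φ] (V → ℤˣ) →* W (oct G) ⋊[χ] (V → ℤˣ) := SemidirectProduct.lift f1 SemidirectProduct.inr (by
    intro σ
    refine PresentedGroup.ext fun v => ?_
    show f1 (φ σ (art G v)) = SemidirectProduct.inr σ * f1 (art G v) * (SemidirectProduct.inr σ)⁻¹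
    rw [hφ, map_zpow, hf1', hf1]
    ext1
    · simp [hχ]
    · simp)
  let θ2 : W (oct G) ⋊[χ] (V → ℤˣ) →* Raag G ⋊[φ] (V → ℤˣ) := SemidirectProduct.lift ψ SemidirectProduct.inr (by
    intro σ
    ext1 x
    refine hom_ext (ρ := ψ.comp (χ σ).toMonoidHom)
      (τ := (MulAut.conj (SemidirectProduct.inr σ)).toMonoidHom.comp ψ) (fun q => ?_) x
    obtain ⟨⟨v, ε⟩, rfl⟩ := toLex.surjective q
    show ψ (χ σ (gen (oct G) (toLex (v, ε)))) = SemidirectProduct.inr σ * ψ (gen (oct G) (toLex (v, ε))) *
      (SemidirectProduct.inr σ)⁻¹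
    rw [hχ, hψ, hψ]
    ext1
    · rw [SemidirectProduct.mul_left, SemidirectProduct.mul_left, ← map_inv, SemidirectProduct.left_inr,
        SemidirectProduct.left_inr, SemidirectProduct.right_inr, map_one, mul_one, one_mul]
      show art G v ^ eb (fb (σ v) ε) = φ σ (art G v ^ eb ε)
      rw [map_zpow, hφ, eb_fb, zpow_mul]
    · rw [SemidirectProduct.mul_right, SemidirectProduct.mul_right, ← map_inv, SemidirectProduct.right_inr,
        SemidirectProduct.right_inr]
      show rf v = σ * rf v * σ⁻¹
      rw [mul_inv_cancel_comm])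
  have h21 : ∀ x, θ2 (θ1 x) = x := by
    have h : θ2.comp θ1 = MonoidHom.id _ := by
      refine SemidirectProduct.hom_ext ?_ ?_
      · refine PresentedGroup.ext fun v => ?_
        show θ2 (θ1 (SemidirectProduct.inl (art G v))) = SemidirectProduct.inl (art G v)
        rw [SemidirectProduct.lift_inl, hf1, SemidirectProduct.mk_eq_inl_mul_inr, map_mul,
          SemidirectProduct.lift_inl, SemidirectProduct.lift_inr, hψ]
        have h3 : art G v ^ eb true = art G v := zpow_one _
        ext1
        · rw [SemidirectProduct.mul_left, SemidirectProduct.left_inr, map_one, mul_one, SemidirectProduct.left_inl]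
          exact h3
        · exact rf_sq _
      · refine MonoidHom.ext fun σ => ?_
        show θ2 (θ1 (SemidirectProduct.inr σ)) = SemidirectProduct.inr σ
        rw [SemidirectProduct.lift_inr, SemidirectProduct.lift_inr]
    intro x
    exact DFunLike.congr_fun h x
  have h12 : ∀ w, θ1 (ψ w) = SemidirectProduct.inl w := by
    intro w
    refine hom_ext (ρ := θ1.comp ψ) (τ := SemidirectProduct.inl) (fun q => ?_) w
    obtain ⟨⟨v, ε⟩, rfl⟩ := toLex.surjective q
    rw [MonoidHom.comp_apply, hψ, SemidirectProduct.mk_eq_inl_mul_inr, map_mul, SemidirectProduct.lift_inl,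
      SemidirectProduct.lift_inr, map_zpow]
    have h3 : eb (ofLex (toLex (v, ε))).2 = (((if ε = true then 1 else -1 : ℤˣ)) : ℤ) := by
      cases ε <;> rfl
    rw [h3]
    show f1 (art G v) ^ _ * _ = _
    rw [hf1']
    ext1
    · cases ε <;> simp [fb]
    · simp [rf_sq]
  refine ⟨Raag G ⋊[φ] (V → ℤˣ), inferInstance, SemidirectProduct.inl, ψ, SemidirectProduct.inl_injective, ?_, ?_, ?_⟩
  · intro a b hab
    have h3 := congrArg θ1 hab
    rw [h12, h12] at h3
    exact SemidirectProduct.inl_injective h3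
  · rw [SemidirectProduct.range_inl_eq_ker_rightHom]
    infer_instance
  · have h3 : ((SemidirectProduct.inl : W (oct G) →* W (oct G) ⋊[χ] (V → ℤˣ)).range.comap θ1).FiniteIndex := by
      rw [SemidirectProduct.range_inl_eq_ker_rightHom, MonoidHom.comap_ker]
      infer_instance
    refine Subgroup.finiteIndex_of_le (H := (SemidirectProduct.inl : W (oct G) →*
      W (oct G) ⋊[χ] (V → ℤˣ)).range.comap θ1) ?_
    rintro x ⟨w, hw⟩
    refine ⟨w, ?_⟩
    rw [← h21 x, ← hw, ← h12, h21]

end

end Pool.Agent.V5helper75.BR
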