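import Pool.Agent.V5helper75.BR.Dj
import Mathlib.GroupTheory.PushoutI

/-!
# The conjecture of Davis and Okun for all the groups commensurable with the groups of the class `FG`
-/

set_option autoImplicit false
set_option linter.unusedSectionVars false

noncomputable section

namespace Pool.Agent.V5helper75.BR

open Pool.Agent.W907.SG Pool.Agent.W907.SM Pool.Agent.W461.SGN Pool.Agent.N496.CV Pool.Agent.V5helper75.BK
open Pool.Agent.V5helper75.VO

/-- the family of two groups -/
def GG (A B : Type) : Bool → Type
  | true => A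
  | false => B

instance ggGroup (A B : Type) [Group A] [Group B] : ∀ x, Group (GG A B x)
  | true => inferInstanceAs (Group A)
  | false => inferInstanceAs (Group B)

/-- two homomorphisms -/
def gg {A B C : Type} [Group A] [Group B] [Group C] (a : C →* A) (b : C →* B) : ∀ x, C →* GG A B x
  | true => a
  | false => b

theorem comap_fin {A B : Type} [Group A] [Group B] (f : A →* B) (S : Subgroup B) (hS : S.FiniteIndex) :
    (S.comap f).FiniteIndex := by
  constructor
  rw [Subgroup.index_comap]
  have : (S.subgroupOf f.range).FiniteIndex := inferInstance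
  exact this.index_ne_zero

/-- amalgamated products -/
theorem amalg {A B C : Type} [Group A] [Group B] [Group C] (a : C →* A) (b : C →* B)
    (ha : Function.Injective a) (hb : Function.Injective b) :
    ∃ (E : Type) (_ : Group E) (f : A →* E) (p : B →* E), Function.Injective f ∧ Function.Injective p ∧
      f.range.comap p = b.range ∧ p.range.comap f = a.range := by
  classical
  have hφ : ∀ x, Function.Injective (gg a b x) := by
    intro x
    cases x
    · exact hb
    · exact ha
  let f : A →* Monoid.PushoutI (gg a b) := Monoid.PushoutI.of (φ := gg a b) true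
  let p : B →* Monoid.PushoutI (gg a b) := Monoid.PushoutI.of (φ := gg a b) false
  have hf : Function.Injective f := Monoid.PushoutI.of_injective hφ true
  have hp : Function.Injective p := Monoid.PushoutI.of_injective hφ false
  have e1 : ∀ c, f (a c) = Monoid.PushoutI.base (gg a b) c := fun c =>
    Monoid.PushoutI.of_apply_eq_base (gg a b) true c
  have e2 : ∀ c, p (b c) = Monoid.PushoutI.base (gg a b) c := fun c =>
    Monoid.PushoutI.of_apply_eq_base (gg a b) false c
  have h1 : f.range ⊓ p.range = (Monoid.PushoutI.base (gg a b)).range :=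
    Monoid.PushoutI.inf_of_range_eq_base_range hφ (i := true) (j := false) (by simp)
  refine ⟨Monoid.PushoutI (gg a b), inferInstance, f, p, hf, hp, ?_, ?_⟩
  · ext y
    constructor
    · intro hy
      have h2 : p y ∈ f.range ⊓ p.range := ⟨hy, ⟨y, rfl⟩⟩
      rw [h1] at h2
      obtain ⟨c, hc⟩ := h2
      exact ⟨c, hp ((e2 c).trans hc)⟩
    · rintro ⟨c, rfl⟩
      exact ⟨a c, (e1 c).trans (e2 c).symm⟩
  · ext y
    constructor
    · intro hy
      have h2 : f y ∈ f.range ⊓ p.range := ⟨⟨y, rfl⟩, hy⟩
      rw [h1] at h2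
      obtain ⟨c, hc⟩ := h2
      exact ⟨c, hf ((e1 c).trans hc)⟩
    · rintro ⟨c, rfl⟩
      exact ⟨b c, (e2 c).trans (e1 c).symm⟩

/-- **The groups commensurable with `W K`** -/
theorem q1_maps {V : Type} [Fintype V] [LinearOrder V] {K : SimpleGraph V} (hK : FG K) {C Γ : Type} [Group C]
    [Group Γ] (a : C →* Γ) (b : C →* W K) (ha : Function.Injective a) (hb : Function.Injective b)
    (h1 : a.range.FiniteIndex) (h2 : b.range.FiniteIndex) {X : Type} [TopologicalSpace X] [MulAction Γ X]
    [ContinuousConstSMul Γ X] [ProperlyDiscontinuousSMul Γ X] {n : ℕ} (e : X × X ≃ₜ (Fin (2 * n) → ℝ)) {i : ℕ}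
    (hi : n < 2 * i) : HasL2Betti Γ i 0 := by
  obtain ⟨E, _, f, p, hf, hp, e1, e2⟩ := amalg a b ha hb
  exact q1_com hK p hp f hf (e1 ▸ h2) (e2 ▸ h1) e hi

theorem map_fin {A B : Type} [Group A] [Group B] (f : A →* B) (hf : Function.Injective f) (h : f.range.FiniteIndex)
    (S : Subgroup A) (hS : S.FiniteIndex) : (S.map f).FiniteIndex := by
  constructor
  rw [Subgroup.index_map_of_injective _ hf]
  exact Nat.mul_ne_zero hS.index_ne_zero h.index_ne_zero

/-- **The groups commensurable with the right-angled Artin group of `G`** -/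
theorem q1_raag {V : Type} [Fintype V] [LinearOrder V] (G : SimpleGraph V) {C Γ : Type} [Group C]
    [Group Γ] (a : C →* Γ) (b : C →* Raag G) (ha : Function.Injective a) (hb : Function.Injective b)
    (h1 : a.range.FiniteIndex) (h2 : b.range.FiniteIndex) {X : Type} [TopologicalSpace X] [MulAction Γ X]
    [ContinuousConstSMul Γ X] [ProperlyDiscontinuousSMul Γ X] {n : ℕ} (e : X × X ≃ₜ (Fin (2 * n) → ℝ)) {i : ℕ}
    (hi : n < 2 * i) : HasL2Betti Γ i 0 := by
  obtain ⟨E, _, f, p, hf, hp, f1, p1⟩ := dj G
  let F : W (oct G) ≃* p.range := MonoidHom.ofInjective hp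
  have hS : (p.range.comap (f.comp b)).FiniteIndex := comap_fin _ _ p1
  let S : Subgroup C := p.range.comap (f.comp b)
  let b' : S →* W (oct G) := F.symm.toMonoidHom.comp
    { toFun := fun s => (⟨f (b s.1), s.2⟩ : p.range)
      map_one' := Subtype.ext (by simp)
      map_mul' := fun x y => Subtype.ext (by simp) }
  have hb' : ∀ s, p (b' s) = f (b s.1) := by
    intro s
    have h3 : F (b' s) = (⟨f (b s.1), s.2⟩ : p.range) := F.apply_symm_apply _
    exact congrArg Subtype.val h3
  refine q1_maps (fg_oct G) (a.comp S.subtype) b' (ha.comp S.subtype_injective) ?_ ?_ ?_ e hi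
  · intro x y hxy
    apply Subtype.ext
    apply hb
    apply hf
    rw [← hb', ← hb', hxy]
  · rw [MonoidHom.range_comp, Subgroup.range_subtype]
    exact map_fin a ha h1 S hS
  · have h3 : ((b.range.map f).comap p).FiniteIndex := comap_fin _ _ (map_fin f hf f1 b.range h2)
    refine Subgroup.finiteIndex_of_le (H := (b.range.map f).comap p) ?_
    rintro w ⟨_, ⟨c, rfl⟩, hc⟩
    refine ⟨⟨c, ?_⟩, hp ?_⟩
    · rw [Subgroup.mem_comap, MonoidHom.comp_apply, hc]
      exact ⟨w, rfl⟩
    · rw [hb']
      exact hc

end Pool.Agent.V5helper75.BR
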