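import Pool.Agent.V5helper75.BR.Sh

/-!
# `L²`-Betti numbers of finite index overgroups
-/

set_option autoImplicit false
set_option linter.unusedSectionVars false

open scoped ENNReal InnerProductSpace

noncomputable section

namespace Pool.Agent.V5helper75.BR

open Pool.Agent.W907.SG Pool.Agent.W461.SGN Pool.Agent.N496.CV Pool.Agent.N496.LT Pool.Agent.RK
open Pool.Agent.Helper655.VN
open Pool.Agent.Helper277.VN5

attribute [local instance] VN831.bcFunctor_additive VN831.viaAdd VN831.viaMod V7N.bcF_additive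
  V7N.rmAdd V7N.rmMod

section iso

variable {K L : Type} [Group K] [Group L] (e : K ≃* L)

/-- transport of functions -/
abbrev pu : EllTwo L →L[ℂ] EllTwo K := pull (fun k => e k) e.injective

theorem pu_rho (l : L) (f : EllTwo L) : pu e (rho L l f) = rho K (e.symm l) (pu e f) := by
  ext k
  show f (e k * l) = f (e (k * e.symm l))
  rw [map_mul, e.apply_symm_apply]

theorem pu_pu (f : EllTwo K) : pu e (pu e.symm f) = f := by
  ext k
  show f (e.symm (e k)) = f k
  rw [e.symm_apply_apply]

/-- the isomorphism of the group von Neumann algebras -/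
def tN : NG K →+* NG L where
  toFun T := ⟨pu e.symm ∘L (T : EllTwo K →L[ℂ] EllTwo K) ∘L pu e, mem_of_Cm (by
    intro l f
    show pu e.symm ((T : EllTwo K →L[ℂ] EllTwo K) (pu e (rho L l f))) =
      rho L l (pu e.symm ((T : EllTwo K →L[ℂ] EllTwo K) (pu e f)))
    rw [pu_rho, Cm_of_mem T.2, pu_rho, MulEquiv.symm_symm, e.apply_symm_apply])⟩
  map_one' := by
    apply Subtype.ext
    ext1 f
    exact pu_pu e.symm f
  map_mul' S T := by
    apply Subtype.ext
    ext1 f
    show pu e.symm ((S : EllTwo K →L[ℂ] EllTwo K) ((T : EllTwo K →L[ℂ] EllTwo K) (pu e f))) =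
      pu e.symm ((S : EllTwo K →L[ℂ] EllTwo K) (pu e (pu e.symm ((T : EllTwo K →L[ℂ] EllTwo K) (pu e f)))))
    rw [pu_pu]
  map_zero' := by
    apply Subtype.ext
    ext1 f
    show pu e.symm ((0 : EllTwo K →L[ℂ] EllTwo K) (pu e f)) = 0
    exact map_zero _
  map_add' S T := by
    apply Subtype.ext
    ext1 f
    show pu e.symm ((S : EllTwo K →L[ℂ] EllTwo K) (pu e f) + (T : EllTwo K →L[ℂ] EllTwo K) (pu e f)) = _
    rw [map_add]
    rfl

theorem tN_apply (T : NG K) (f : EllTwo L) : (tN e T : EllTwo L →L[ℂ] EllTwo L) f =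
    pu e.symm ((T : EllTwo K →L[ℂ] EllTwo K) (pu e f)) := rfl

theorem tN_tN (T : NG K) : tN e.symm (tN e T) = T := by
  apply Subtype.ext
  ext1 f
  rw [tN_apply, tN_apply]
  show pu e (pu e.symm ((T : EllTwo K →L[ℂ] EllTwo K) (pu e (pu e.symm f)))) = _
  rw [pu_pu, pu_pu]

theorem tN_canL (k : K) : tN e (canL k) = canL (e k) := by
  apply Subtype.ext
  ext f l
  show f (e (k⁻¹ * e.symm l)) = f ((e k)⁻¹ * l)
  rw [map_mul, map_inv, e.apply_symm_apply]

theorem tN_nz {s : NG K} (hs : Nz s) : Nz (tN e s) := by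
  intro x hx
  have h1 : tN e.symm x * s = 0 := by
    rw [← tN_tN e s, ← map_mul, hx, map_zero]
  have h2 := hs _ h1
  have h3 := tN_tN e.symm x
  rw [h2, map_zero] at h3
  exact h3.symm

end iso

section exp

variable {G : Type} [Group G] (N : Subgroup G)

theorem cE_add (x y : NG G) : cE N (x + y) = cE N x + cE N y := by
  apply Subtype.ext
  ext1 f
  rw [cE_apply]
  show res N 1 ((x : EllTwo G →L[ℂ] EllTwo G) (exz N f) + (y : EllTwo G →L[ℂ] EllTwo G) (exz N f)) = _
  rw [map_add]
  rfl

theorem cE_mul' (s : NG N) (x : NG G) : cE N (jN N s * x) = s * cE N x := by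
  apply Subtype.ext
  ext1 f
  rw [cE_apply]
  show res N 1 (((jN N s : NG G) : EllTwo G →L[ℂ] EllTwo G) ((x : EllTwo G →L[ℂ] EllTwo G) (exz N f))) = _
  rw [jN_res]
  rfl

theorem topcf_cE (x : NG G) (n : N) : topcf n (cE N x) = topcf (n : G) x := by
  rw [topcf_apply, topcf_apply, cE_apply, exz_dl, res_apply, mul_one]

/-- the decomposition into cosets -/
theorem rec_cE [Fintype (Q N)] (y : NG G) : ∑ q : Q N, jN N (cE N (y * canL (q.out)⁻¹)) * canL q.out = y := by
  classical
  rw [← sub_eq_zero]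
  apply topcf_ext
  intro h
  rw [map_sub, sub_eq_zero, map_sum]
  have h1 : ∀ q : Q N, topcf h (jN N (cE N (y * canL (q.out)⁻¹)) * canL q.out) =
      if q = cl N h then topcf h y else 0 := by
    intro q
    have h2 := topcf_mul h q.out⁻¹ (jN N (cE N (y * canL (q.out)⁻¹)))
    rw [inv_inv] at h2
    rw [h2]
    by_cases hq : h * q.out⁻¹ ∈ N
    · have h3 : q = cl N h := by
        rw [← cl_out N q, cl_eq N]
        exact hq
      rw [if_pos h3, topcf_apply]
      have h4 := jN_coef_mem N (cE N (y * canL (q.out)⁻¹)) ⟨h * q.out⁻¹, hq⟩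
      rw [h4, ← topcf_apply, topcf_cE, topcf_mul]
      congr 1
      simp
    · rw [topcf_apply, jN_coef_notMem N _ _ hq, if_neg]
      rintro rfl
      exact hq (out_mem N h)
  rw [Finset.sum_congr rfl fun q _ => h1 q, Finset.sum_ite_eq' Finset.univ (cl N h), if_pos (Finset.mem_univ _)]

end exp

theorem bettiTors {H : Type} [Group H] {k : ℕ}
    (h : ∀ m : ((V7N.bcF (canL : H →* NG H)).leftDerived k).obj (V7N.trivG H), ∃ s : NG H, Nz s ∧ s • m = 0) :
    HasL2Betti H k 0 := by
  refine HasL2Betti.mk (NG H) (EllTwo H) (canL : H →* NG H) (fun x => (tr x).re) (fun h => (dl h : EllTwo H)) _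
    (isVN_NG H) ?_
  exact FinAux.luck_zero h

/-- the structure of `N(H)` over `N(K)` -/
theorem exp_data {K H : Type} [Group K] [Group H] (κ : K →* H) (hκ : Function.Injective κ)
    [Fintype (Q κ.range)] : ∃ (j : NG K →+* NG H) (E : NG H →+ NG K), (∀ k, j (canL k) = canL (κ k)) ∧
      (∀ x s, E (x * j s) = E x * s) ∧ (∀ s x, E (j s * x) = s * E x) ∧
      (∀ y, ∑ q : Q κ.range, j (E (y * canL q.out⁻¹)) * canL q.out = y) ∧ ∀ s, Nz s → Nz (j s) := by
  let e : K ≃* κ.range := MonoidHom.ofInjective hκ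
  refine ⟨(jN κ.range).comp (tN e),
    { toFun := fun x => tN e.symm (cE κ.range x)
      map_zero' := by rw [cE_zero, map_zero]
      map_add' := fun x y => by rw [cE_add, map_add] }, ?_, ?_, ?_, ?_, ?_⟩
  · intro k
    show jN κ.range (tN e (canL k)) = _
    rw [tN_canL, jN_canL]
    rfl
  · intro x s
    show tN e.symm (cE κ.range (x * jN κ.range (tN e s))) = tN e.symm (cE κ.range x) * s
    rw [cE_mul, map_mul, tN_tN]
  · intro s x
    show tN e.symm (cE κ.range (jN κ.range (tN e s) * x)) = s * tN e.symm (cE κ.range x)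
    rw [cE_mul', map_mul, tN_tN]
  · intro y
    refine Eq.trans (Finset.sum_congr rfl fun q _ => ?_) (rec_cE κ.range y)
    show jN κ.range (tN e (tN e.symm (cE κ.range (y * canL q.out⁻¹)))) * canL q.out = _
    have h1 := tN_tN e.symm (cE κ.range (y * canL q.out⁻¹))
    rw [MulEquiv.symm_symm] at h1
    rw [h1]
  · intro s hs
    exact jN_nz κ.range (tN e s) (tN_nz e hs)

/-- **Overgroups of finite index.** If every element of `Tor_n^{ℤ[K]}(N(K), ℤ)` is annihilated by a non zero divisor of
`N(K)`, then the same holds for every group which contains `K` as a subgroup of finite index. -/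
theorem up_tors {K H : Type} [Group K] [Group H] (κ : K →* H) (hκ : Function.Injective κ)
    (hfi : κ.range.FiniteIndex) {n : ℕ}
    (key : ∀ m : ((V7N.bcF (canL : K →* NG K)).leftDerived n).obj (V7N.trivG K), ∃ s : NG K, Nz s ∧ s • m = 0)
    (m : ((V7N.bcF (canL : H →* NG H)).leftDerived n).obj (V7N.trivG H)) : ∃ s : NG H, Nz s ∧ s • m = 0 := by
  have hQf := finQ _ hfi
  have hQ : Fintype (Q κ.range) := Fintype.ofFinite _
  obtain ⟨j, E, hj, hE, hE', hrec, hnz⟩ := exp_data κ hκ
  obtain ⟨f, hf, hfs⟩ := sha κ (cK := (canL : K →* NG K)) (c := (canL : H →* NG H)) hκ hj hE hE' hrec n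
  obtain ⟨s, hs, hs0⟩ := key (f m)
  refine ⟨j s, hnz s hs, hf ?_⟩
  exact (hfs s m).trans (hs0.trans f.map_zero.symm)

/-- **Overgroups of finite index.** If every element of `Tor_n^{ℤ[K]}(N(K), ℤ)` is annihilated by a non zero divisor of
`N(K)`, then the `n`-th `L²`-Betti number of every group which contains `K` as a subgroup of finite index is zero. -/
theorem up {K H : Type} [Group K] [Group H] (κ : K →* H) (hκ : Function.Injective κ) (hfi : κ.range.FiniteIndex)
    {n : ℕ} (key : ∀ m : ((V7N.bcF (canL : K →* NG K)).leftDerived n).obj (V7N.trivG K), ∃ s : NG K, Nz s ∧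
      s • m = 0) : HasL2Betti H n 0 :=
  bettiTors (up_tors κ hκ hfi key)

end Pool.Agent.V5helper75.BR
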