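import Pool.Agent.N496.CV.P_CON
import Pool.Agent.RK.Defs

/-!
# Coboundaries of chains of functions on a right-angled Coxeter group, for subgroups of finite index
-/

set_option autoImplicit false
set_option linter.unusedSectionVars false

noncomputable section

namespace Pool.Agent.V5helper75.BR

open Pool.Agent.W907.SG Pool.Agent.W461.SGN Pool.Agent.N496.CV Pool.Agent.RK

section coset

variable {W' : Type} [Group W'] (K : Subgroup W')

/-- the right cosets `K w` -/
abbrev Q : Type := Quotient (QuotientGroup.rightRel K)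

/-- the coset of `w` -/
abbrev cl (w : W') : Q K := Quotient.mk (QuotientGroup.rightRel K) w

theorem cl_eq {w w' : W'} : cl K w = cl K w' ↔ w' * w⁻¹ ∈ K := by
  rw [Quotient.eq, QuotientGroup.rightRel_apply]

theorem out_mem (w : W') : w * (cl K w).out⁻¹ ∈ K := by
  rw [← cl_eq K]
  exact Quotient.out_eq _

/-- the component in `K` -/
def kp (w : W') : K := ⟨w * (cl K w).out⁻¹, out_mem K w⟩

theorem kp_mul (w : W') : (kp K w : W') * (cl K w).out = w := by
  unfold kp
  simp

theorem cl_mul (h : K) (w : W') : cl K (h * w) = cl K w := by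
  rw [cl_eq K]
  have e : w * ((h : W') * w)⁻¹ = ((h⁻¹ : K) : W') := by
    rw [mul_inv_rev, mul_inv_cancel_left, Subgroup.coe_inv]
  rw [e]
  exact (h⁻¹).2

theorem kp_hmul (h : K) (w : W') : kp K (h * w) = h * kp K w := by
  apply Subtype.ext
  unfold kp
  rw [Subgroup.coe_mul]
  simp only [cl_mul K h w]
  group

theorem cl_out (q : Q K) : cl K q.out = q := Quotient.out_eq q

theorem kp_out (q : Q K) : kp K q.out = 1 := by
  apply Subtype.ext
  unfold kp
  rw [Subgroup.coe_one, Subtype.coe_mk, cl_out K q]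
  simp

theorem inv_out {M : Type} {f : W' → M} (hf : ∀ (h : K) w, f (h * w) = f w) (w : W') : f (cl K w).out = f w := by
  conv_rhs => rw [← kp_mul K w]
  rw [hf]

theorem qsum_mul [Fintype (Q K)] {M : Type} [AddCommMonoid M] (f : W' → M) (hf : ∀ (h : K) w, f (h * w) = f w)
    (y : W') : ∑ q : Q K, f (q.out * y) = ∑ q : Q K, f q.out := by
  have hinj : Function.Injective fun q : Q K => cl K (q.out * y) := by
    intro q q' h
    have h1 := (cl_eq K).1 h
    rw [← cl_out K q, ← cl_out K q', cl_eq K]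
    have e : q'.out * y * (q.out * y)⁻¹ = q'.out * q.out⁻¹ := by group
    rwa [e] at h1
  have hbij : Function.Bijective fun q : Q K => cl K (q.out * y) := Finite.injective_iff_bijective.1 hinj
  refine Fintype.sum_bijective _ hbij _ _ fun q => ?_
  exact (inv_out K hf _).symm

end coset

section

variable {V : Type} [Fintype V] [LinearOrder V] {G : SimpleGraph V} {R : Type} [Ring R]

theorem simple_sq (t : V) : (cox G).simple t * (cox G).simple t = 1 :=
  (cox G).toCoxeterSystem.simple_mul_simple_self t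

theorem simple_mul (w : W G) (t : V) : w * (cox G).simple t * (cox G).simple t = w := by
  rw [mul_assoc, simple_sq, mul_one]

variable (G)

open Classical in
/-- the coboundary -/
def cbd (c : Finset V → W G → R) (T : Finset V) (w : W G) : R :=
  if G.IsClique (T : Set V) then
    ∑ t ∈ T, sg t (T.erase t) • (c (T.erase t) w - c (T.erase t) (w * (cox G).simple t)) else 0

variable {G}

/-- equivariant functions -/
def Eqv (K : Subgroup (W G)) (u : K →* R) (f : W G → R) : Prop := ∀ (h : K) w, f (h * w) = f w * u h⁻¹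

theorem inM_iff (K : Subgroup (W G)) [K.FiniteIndex] (u : K →* R) (f : W G → R) :
    InM K u Set.univ (⊥ : Subgroup (W G × ℤˣ)) f ↔ Eqv K u f := by
  classical
  constructor
  · intro h
    exact h.eqK
  · intro h
    have hfin : Finite (Q K) := by
      have := Subgroup.finite_quotient_of_finiteIndex (H := K)
      exact Finite.of_equiv _ (QuotientGroup.quotientRightRelEquivQuotientLeftRel K).symm
    have : Fintype (Q K) := Fintype.ofFinite _
    refine ⟨fun _ _ => trivial, ?_, h, ?_⟩
    · intro p hp w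
      rw [Subgroup.mem_bot] at hp
      subst hp
      simp
    · refine ⟨Finset.univ.image fun q : Q K => q.out, fun w _ => ⟨kp K w, (cl K w).out, ?_, 1, Subgroup.mem_bot.2 rfl, ?_⟩⟩
      · exact Finset.mem_image.2 ⟨_, Finset.mem_univ _, rfl⟩
      · rw [Prod.fst_one, mul_one, kp_mul K w]

theorem lin_eqv (K : Subgroup (W G)) (u : K →* R) : C722.Lin (Eqv K u) where
  zero h w := by simp
  add f g hf hg h w := by rw [Pi.add_apply, Pi.add_apply, hf, hg, add_mul]
  neg f hf h w := by rw [Pi.neg_apply, Pi.neg_apply, hf, neg_mul]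

/-- the coboundary of a chain is a chain -/
theorem ch_cbd {K : Subgroup (W G)} {u : K →* R} {i : ℕ} {c : Finset V → W G → R}
    (hc : IsCh G Set.univ (Eqv K u) i c) : IsCh G Set.univ (Eqv K u) (i + 1) (cbd G c) where
  supp := fun T hT => by
    funext w
    unfold cbd
    split_ifs with h1
    · refine Finset.sum_eq_zero fun t ht => ?_
      rw [hc.supp (T.erase t), Pi.zero_apply, Pi.zero_apply, sub_zero, smul_zero]
      rintro ⟨-, -, h3⟩
      apply hT
      refine ⟨h1, Set.subset_univ _, ?_⟩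
      rw [Finset.card_erase_of_mem ht] at h3
      have := Finset.card_pos.2 ⟨t, ht⟩
      omega
    · rfl
  mem := fun T h w => by
    unfold cbd
    split_ifs with h1
    · rw [Finset.sum_mul]
      refine Finset.sum_congr rfl fun t _ => ?_
      rw [smul_mul_assoc, sub_mul, hc.mem, mul_assoc (h : W G) w, hc.mem]
    · rw [zero_mul]
  anti := fun T t0 ht0 w => by
    unfold cbd
    split_ifs with h1
    · rw [← Finset.sum_neg_distrib]
      refine Finset.sum_congr rfl fun t ht => ?_
      rw [← smul_neg]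
      congr 1
      by_cases h : t = t0
      · subst h
        rw [simple_mul]
        abel
      · have ht' : t0 ∈ T.erase t := Finset.mem_erase.2 ⟨Ne.symm h, ht0⟩
        have e : w * (cox G).simple t0 * (cox G).simple t = w * (cox G).simple t * (cox G).simple t0 := by
          rw [mul_assoc, mul_assoc, simple_comm G t0 t (h1 ht0 ht (Ne.symm h))]
        rw [e, hc.anti _ t0 ht', hc.anti _ t0 ht']
        abel
    · rw [neg_zero]

theorem cbd_smul (r : R) (c : Finset V → W G → R) : cbd G (fun T w => r * c T w) = fun T w => r * cbd G c T w := by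
  funext T w
  unfold cbd
  split_ifs with h1
  · rw [Finset.mul_sum]
    refine Finset.sum_congr rfl fun t _ => ?_
    rw [mul_smul_comm, mul_sub]
  · rw [mul_zero]

theorem bdf_smul (r : R) (c : Finset V → W G → R) : bdf G (fun T w => r * c T w) = fun T w => r * bdf G c T w := by
  funext T w
  unfold bdf
  rw [Finset.mul_sum]
  refine Finset.sum_congr rfl fun t _ => ?_
  rw [mul_smul_comm]

theorem cbd_add (c d : Finset V → W G → R) : cbd G (c + d) = cbd G c + cbd G d := by
  funext T w
  rw [Pi.add_apply, Pi.add_apply]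
  unfold cbd
  split_ifs with h1
  · rw [← Finset.sum_add_distrib]
    refine Finset.sum_congr rfl fun t _ => ?_
    simp only [Pi.add_apply]
    rw [← smul_add]
    congr 1
    abel
  · rw [add_zero]

/-! ### the form -/

/-- the form on equivariant chains -/
def Bf (K : Subgroup (W G)) [Fintype (Q K)] (φ : R →+ R →+ ℝ) (x y : Finset V → W G → R) : ℝ :=
  ∑ T, ∑ q : Q K, φ (x T q.out) (y T q.out)

/-- the forms which are invariant under the multiplication by the elements of `K` -/
def Inv (K : Subgroup (W G)) (u : K →* R) (φ : R →+ R →+ ℝ) : Prop := ∀ (h : K) a b, φ (a * u h) (b * u h) = φ a b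

theorem adj {K : Subgroup (W G)} [Fintype (Q K)] {u : K →* R} {φ : R →+ R →+ ℝ} (hφ : Inv K u φ) {i : ℕ}
    {x y : Finset V → W G → R} (hx : IsCh G Set.univ (Eqv K u) (i + 1) x) (hy : IsCh G Set.univ (Eqv K u) i y) :
    Bf K φ x (cbd G y) = 2 * Bf K φ (bdf G x) y := by
  classical
  obtain ⟨a, ha⟩ : ∃ a : Finset V → Finset V → ℝ, ∀ T' T, a T' T = ∑ q : Q K, φ (x T' q.out) (y T q.out) :=
    ⟨_, fun _ _ => rfl⟩
  -- right translation
  have hshift : ∀ (T : Finset V), ∀ t ∈ T, ∑ q : Q K, φ (x T q.out) (y (T.erase t) (q.out * (cox G).simple t)) =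
      - a T (T.erase t) := by
    intro T t ht
    have h1 := qsum_mul K (fun w => φ (x T w) (y (T.erase t) (w * (cox G).simple t))) (fun h w => by
      show φ (x T (h * w)) (y (T.erase t) (h * w * (cox G).simple t)) = _
      rw [mul_assoc, hx.mem, hy.mem, hφ]) ((cox G).simple t)
    rw [← h1, ha, ← Finset.sum_neg_distrib]
    refine Finset.sum_congr rfl fun q _ => ?_
    rw [simple_mul, hx.anti T t ht, map_neg]
    rfl
  have e1 : Bf K φ x (cbd G y) = ∑ T : Finset V, ∑ t ∈ T, 2 * ((sg t (T.erase t) : ℝ) * a T (T.erase t)) := by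
    unfold Bf
    refine Finset.sum_congr rfl fun T _ => ?_
    by_cases hT : G.IsClique (T : Set V)
    · have h1 : ∀ q : Q K, φ (x T q.out) (cbd G y T q.out) = ∑ t ∈ T, (sg t (T.erase t) : ℝ) *
          (φ (x T q.out) (y (T.erase t) q.out) - φ (x T q.out) (y (T.erase t) (q.out * (cox G).simple t))) := by
        intro q
        unfold cbd
        rw [if_pos hT, map_sum]
        refine Finset.sum_congr rfl fun t _ => ?_
        rw [map_zsmul, map_sub, zsmul_eq_mul]
      simp only [h1]
      rw [Finset.sum_comm]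
      refine Finset.sum_congr rfl fun t ht => ?_
      rw [← Finset.mul_sum, Finset.sum_sub_distrib, hshift T t ht, ← ha]
      ring
    · have h0 : x T = 0 := hx.supp T fun h => hT h.1
      have h1 : ∀ T', a T T' = 0 := by
        intro T'
        rw [ha]
        refine Finset.sum_eq_zero fun q _ => ?_
        rw [h0, Pi.zero_apply, map_zero]
        rfl
      simp only [h1, h0, Pi.zero_apply, map_zero, AddMonoidHom.zero_apply, mul_zero, Finset.sum_const_zero]
  have e2 : Bf K φ (bdf G x) y = ∑ T : Finset V, ∑ v ∈ Tᶜ, (sg v T : ℝ) * a (insert v T) T := by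
    unfold Bf
    refine Finset.sum_congr rfl fun T _ => ?_
    have h1 : ∀ q : Q K, φ (bdf G x T q.out) (y T q.out) = ∑ v ∈ Tᶜ, (sg v T : ℝ) *
        φ (x (insert v T) q.out) (y T q.out) := by
      intro q
      unfold bdf
      rw [map_sum, AddMonoidHom.finsetSum_apply]
      refine Finset.sum_congr rfl fun v _ => ?_
      rw [map_zsmul, AddMonoidHom.zsmul_apply, zsmul_eq_mul]
    simp only [h1]
    rw [Finset.sum_comm]
    refine Finset.sum_congr rfl fun t ht => ?_
    rw [← Finset.mul_sum, ha]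
  rw [e1, e2, Finset.mul_sum]
  simp only [Finset.mul_sum]
  rw [Finset.sum_sigma', Finset.sum_sigma']
  refine Finset.sum_nbij' (fun z => ⟨z.1.erase z.2, z.2⟩) (fun z => ⟨insert z.2 z.1, z.2⟩) ?_ ?_ ?_ ?_ ?_
  · rintro ⟨T, t⟩ h
    simp only [Finset.mem_sigma, Finset.mem_univ, true_and, Finset.mem_compl] at h ⊢
    exact Finset.notMem_erase t T
  · rintro ⟨T, t⟩ h
    simp only [Finset.mem_sigma, Finset.mem_univ, true_and, Finset.mem_compl] at h ⊢
    exact Finset.mem_insert_self t T
  · rintro ⟨T, t⟩ h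
    simp only [Finset.mem_sigma, Finset.mem_univ, true_and] at h
    simp only [Finset.insert_erase h]
  · rintro ⟨T, t⟩ h
    simp only [Finset.mem_sigma, Finset.mem_univ, true_and, Finset.mem_compl] at h
    simp only [Finset.erase_insert h]
  · rintro ⟨T, t⟩ h
    simp only [Finset.mem_sigma, Finset.mem_univ, true_and] at h
    simp only [Finset.insert_erase h]

theorem Bf_add_left (K : Subgroup (W G)) [Fintype (Q K)] (φ : R →+ R →+ ℝ) (x x' y : Finset V → W G → R) :
    Bf K φ (x + x') y = Bf K φ x y + Bf K φ x' y := by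
  unfold Bf
  rw [← Finset.sum_add_distrib]
  refine Finset.sum_congr rfl fun T _ => ?_
  rw [← Finset.sum_add_distrib]
  refine Finset.sum_congr rfl fun q _ => ?_
  rw [Pi.add_apply, Pi.add_apply, map_add]
  rfl

theorem Bf_zero_left (K : Subgroup (W G)) [Fintype (Q K)] (φ : R →+ R →+ ℝ) (y : Finset V → W G → R) :
    Bf K φ 0 y = 0 := by
  unfold Bf
  refine Finset.sum_eq_zero fun T _ => Finset.sum_eq_zero fun q _ => ?_
  rw [Pi.zero_apply, Pi.zero_apply, map_zero]
  rfl

theorem Bf_zero_right (K : Subgroup (W G)) [Fintype (Q K)] (φ : R →+ R →+ ℝ) (y : Finset V → W G → R) :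
    Bf K φ y 0 = 0 := by
  unfold Bf
  refine Finset.sum_eq_zero fun T _ => Finset.sum_eq_zero fun q _ => ?_
  rw [Pi.zero_apply, Pi.zero_apply, map_zero]

theorem Bf_flip (K : Subgroup (W G)) [Fintype (Q K)] (φ : R →+ R →+ ℝ) (x y : Finset V → W G → R) :
    Bf K φ.flip x y = Bf K φ y x := rfl

variable [StarRing R]

/-- the form `τ (a b*)` -/
def ph (τ : R →+ ℝ) : R →+ R →+ ℝ :=
  AddMonoidHom.mk' (fun a => AddMonoidHom.mk' (fun b => τ (a * star b)) (fun b b' => by
    rw [star_add, mul_add, map_add])) (fun a a' => by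
      ext b
      show τ ((a + a') * star b) = τ (a * star b) + τ (a' * star b)
      rw [add_mul, map_add])

theorem ph_apply (τ : R →+ ℝ) (a b : R) : ph τ a b = τ (a * star b) := rfl

theorem inv_ph {K : Subgroup (W G)} {u : K →* R} (hu : ∀ h, u h * star (u h) = 1) (τ : R →+ ℝ) : Inv K u (ph τ) := by
  intro h a b
  rw [ph_apply, ph_apply, star_mul, mul_assoc, ← mul_assoc (u h), hu, one_mul]

theorem inv_ph' {K : Subgroup (W G)} {u : K →* R} (hu : ∀ h, u h * star (u h) = 1) (τ : R →+ ℝ) :
    Inv K u (ph τ).flip := by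
  intro h a b
  exact inv_ph hu τ h b a

/-- positivity -/
theorem Bf_pos {K : Subgroup (W G)} [Fintype (Q K)] {u : K →* R} {τ : R →+ ℝ} (hV : VN R τ)
    {x : Finset V → W G → R} (hx : ∀ T, Eqv K u (x T)) :
    0 ≤ Bf K (ph τ) x x ∧ (Bf K (ph τ) x x = 0 → x = 0) := by
  have h0 : ∀ T (q : Q K), 0 ≤ ph τ (x T q.out) (x T q.out) := by
    intro T q
    rw [ph_apply, hV.comm]
    exact hV.nonneg _
  refine ⟨Finset.sum_nonneg fun T _ => Finset.sum_nonneg fun q _ => h0 T q, fun h => ?_⟩
  funext T w
  have h1 := (Finset.sum_eq_zero_iff_of_nonneg (fun T _ => Finset.sum_nonneg fun q _ => h0 T q)).1 h T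
    (Finset.mem_univ _)
  have h2 := (Finset.sum_eq_zero_iff_of_nonneg (fun q _ => h0 T q)).1 h1 (cl K w) (Finset.mem_univ _)
  rw [ph_apply, hV.comm] at h2
  have h3 := hV.faithful _ h2
  rw [← kp_mul K w, hx, h3, zero_mul]
  rfl

/-- **Hodge**: chains in the kernel of the Laplacian are harmonic -/
theorem harm_of {K : Subgroup (W G)} [Fintype (Q K)] {u : K →* R} {τ : R →+ ℝ} (hV : VN R τ)
    (hu : ∀ h, u h * star (u h) = 1) {n : ℕ} {z : Finset V → W G → R}
    (hz : IsCh G Set.univ (Eqv K u) (n + 1) z) (h : bdf G (cbd G z) + cbd G (bdf G z) = 0) :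
    bdf G z = 0 ∧ cbd G z = 0 := by
  have hb := C722.ch_bdf (lin_eqv K u) hz
  have hc := ch_cbd hz
  have h1 := adj (inv_ph hu τ) hc hz
  have h2 := adj (inv_ph' hu τ) hz hb
  rw [Bf_flip, Bf_flip] at h2
  have h3 : Bf K (ph τ) (bdf G (cbd G z)) z + Bf K (ph τ) (cbd G (bdf G z)) z = 0 := by
    rw [← Bf_add_left, h, Bf_zero_left]
  obtain ⟨p1, p2⟩ := Bf_pos (τ := τ) hV hc.mem
  obtain ⟨p3, p4⟩ := Bf_pos (τ := τ) hV hb.mem
  exact ⟨p4 (by linarith), p2 (by linarith)⟩

/-- cycles in the image of the Laplacian are boundaries -/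
theorem bdry_of {K : Subgroup (W G)} [Fintype (Q K)] {u : K →* R} {τ : R →+ ℝ} (hV : VN R τ)
    (hu : ∀ h, u h * star (u h) = 1) {n : ℕ} {c w : Finset V → W G → R}
    (hw : IsCh G Set.univ (Eqv K u) (n + 1) w) (hc : bdf G c = 0)
    (h : bdf G (cbd G w) + cbd G (bdf G w) = c) : bdf G (cbd G w) = c := by
  have hb := C722.ch_bdf (lin_eqv K u) hw
  have hy := ch_cbd hb
  have h0 : bdf G (cbd G (bdf G w)) = 0 := by
    have h1 := congrArg (bdf G) h
    rw [C722.bdf_add, C722.bdf_bdf, zero_add, hc] at h1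
    exact h1
  have h2 := adj (inv_ph' hu τ) hy hb
  rw [Bf_flip, Bf_flip, h0, Bf_zero_right, mul_zero] at h2
  have h3 := (Bf_pos (τ := τ) hV hy.mem).2 h2
  rw [h3, add_zero] at h
  exact h

end

end Pool.Agent.V5helper75.BR
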