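import Pool.Agent.Helper970.V7.P_proj_RM
import Pool.Agent.V5helper75.BR.Adj

/-!
# Transfer: group homology of a group and of a subgroup of finite index, with coefficients in a ring
-/

set_option autoImplicit false
set_option linter.unusedSectionVars false

noncomputable section

namespace Pool.Agent.V5helper75.BR

open CategoryTheory V7N

open scoped TensorProduct

attribute [local instance] bcF_additive V7N.rmAdd V7N.rmMod

section

variable {K H : Type} [Group K] [Group H] (κ : K →* H)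

/-- restriction along `κ` -/
abbrev rs : ModuleCat.{0} (MonoidAlgebra ℤ H) ⥤ ModuleCat.{0} (MonoidAlgebra ℤ K) :=
  ModuleCat.restrictScalars (inc κ)

instance rs_lim : Limits.PreservesFiniteLimits (rs κ) :=
  ⟨fun _ _ _ => ⟨inferInstance⟩⟩

instance rs_hom : (rs κ).PreservesHomology := inferInstance

theorem rs_proj (hκ : Function.Injective κ) : (rs κ).PreservesProjectiveObjects := by
  refine ⟨fun {X} hX => ?_⟩
  have hepi : (ModuleCat.coextendScalars.{0, 0, 0} (inc κ)).PreservesEpimorphisms := by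
    refine ⟨fun {M N} g hg => ?_⟩
    rw [ModuleCat.epi_iff_surjective] at hg ⊢
    intro φ
    have hp : Module.Projective (MonoidAlgebra ℤ K) ((rs κ).obj (ModuleCat.of _ (MonoidAlgebra ℤ H))) := by
      have h1 := proj_via κ hκ
      exact h1
    obtain ⟨ψ, hψ⟩ := Module.projective_lifting_property g.hom φ hg
    exact ⟨ψ, hψ⟩
  exact (ModuleCat.restrictCoextendScalarsAdj.{0, 0, 0} (inc κ)).map_projective X hX

variable {R : Type} [Ring R] (c : H →* R)

theorem rs_smul (P : ModuleCat.{0} (MonoidAlgebra ℤ H)) (k : K) (p : P) :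
    ((MonoidAlgebra.single k (1 : ℤ) : MonoidAlgebra ℤ K) • (show (rs κ).obj P from p) : (rs κ).obj P) =
      (MonoidAlgebra.single (κ k) (1 : ℤ) : MonoidAlgebra ℤ H) • p := by
  show (inc κ (MonoidAlgebra.single k (1 : ℤ))) • p = _
  rw [inc_single]

/-- from `K` to `H`, on modules -/
def coM (P : ModuleCat.{0} (MonoidAlgebra ℤ H)) : BCG (c.comp κ) ((rs κ).obj P) →ₗ[R] BCG c P :=
  Submodule.mapQ (bcR (c.comp κ) ((rs κ).obj P)) (bcR c P) LinearMap.id (by
    rw [bcR, Submodule.span_le]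
    rintro z ⟨x, g, p, rfl⟩
    refine Submodule.subset_span ⟨x, κ g, p, ?_⟩
    exact congrArg (fun y : P => ((x * c (κ g)) ⊗ₜ[ℤ] (show P from p) - x ⊗ₜ[ℤ] y : R ⊗[ℤ] P)) (rs_smul κ P g p))

/-- from `K` to `H` -/
def co : rs κ ⋙ bcF (c.comp κ) ⟶ bcF c where
  app P := ModuleCat.ofHom (coM κ c P)
  naturality P P' f := by
    ext1
    apply bc_ind
    intro p
    rfl

theorem co_mk (P : ModuleCat.{0} (MonoidAlgebra ℤ H)) (x : R) (p : P) :
    coM κ c P (Submodule.Quotient.mk (x ⊗ₜ[ℤ] (show (rs κ).obj P from p)) :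
      BCG (c.comp κ) ((rs κ).obj P)) = (Submodule.Quotient.mk (x ⊗ₜ[ℤ] p) : BCG c P) := rfl

theorem mk_rel (P : ModuleCat.{0} (MonoidAlgebra ℤ H)) (x : R) (h : H) (p : P) :
    (Submodule.Quotient.mk (x ⊗ₜ[ℤ] ((MonoidAlgebra.single h (1 : ℤ) : MonoidAlgebra ℤ H) • p)) : BCG c P) =
      Submodule.Quotient.mk ((x * c h) ⊗ₜ[ℤ] p) := by
  symm
  rw [Submodule.Quotient.eq]
  exact Submodule.subset_span ⟨x, h, p, rfl⟩

/-- one summand of the transfer -/
def trp (r0 : R) (g : H) (P : ModuleCat.{0} (MonoidAlgebra ℤ H)) :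
    (R ⊗[ℤ] P) →ₗ[R] BCG (c.comp κ) ((rs κ).obj P) :=
  (bcR (c.comp κ) ((rs κ).obj P)).mkQ.comp
    (TensorProduct.AlgebraTensorModule.map (LinearMap.toSpanSingleton R R (c g⁻¹ * r0))
      (show P →ₗ[ℤ] ((rs κ).obj P) from
        (DistribSMul.toAddMonoidHom P (MonoidAlgebra.single g (1 : ℤ) : MonoidAlgebra ℤ H)).toIntLinearMap))

theorem trp_apply (r0 : R) (g : H) (P : ModuleCat.{0} (MonoidAlgebra ℤ H)) (x : R) (p : P) :
    trp κ c r0 g P (x ⊗ₜ[ℤ] p) = Submodule.Quotient.mk ((x * (c g⁻¹ * r0)) ⊗ₜ[ℤ]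
      (show (rs κ).obj P from (MonoidAlgebra.single g (1 : ℤ) : MonoidAlgebra ℤ H) • p)) := rfl

variable {κ c}

theorem trp_inv {r0 : R} (hr : ∀ y, r0 * y = y * r0) (P : ModuleCat.{0} (MonoidAlgebra ℤ H)) (x : R) (p : P)
    (k : κ.range) (g : H) : trp κ c r0 (k * g) P (x ⊗ₜ[ℤ] p) = trp κ c r0 g P (x ⊗ₜ[ℤ] p) := by
  obtain ⟨_, ⟨k, rfl⟩⟩ := k
  rw [trp_apply, trp_apply]
  have h1 : (MonoidAlgebra.single (κ k * g) (1 : ℤ) : MonoidAlgebra ℤ H) • p =
      (MonoidAlgebra.single (κ k) (1 : ℤ) : MonoidAlgebra ℤ H) •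
        ((MonoidAlgebra.single g (1 : ℤ) : MonoidAlgebra ℤ H) • p) := by
    rw [smul_smul, MonoidAlgebra.single_mul_single, mul_one]
  have h2 := mk_rel (c.comp κ) ((rs κ).obj P) (x * (c (κ k * g)⁻¹ * r0)) k
    (show (rs κ).obj P from (MonoidAlgebra.single g (1 : ℤ) : MonoidAlgebra ℤ H) • p)
  rw [rs_smul] at h2
  show (Submodule.Quotient.mk ((x * (c (κ k * g)⁻¹ * r0)) ⊗ₜ[ℤ]
      (show (rs κ).obj P from (MonoidAlgebra.single (κ k * g) (1 : ℤ) : MonoidAlgebra ℤ H) • p)) :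
        BCG (c.comp κ) ((rs κ).obj P)) = _
  rw [h1]
  refine h2.trans ?_
  congr 2
  rw [mul_assoc x, mul_assoc (c _), hr, ← mul_assoc (c _), MonoidHom.comp_apply, ← map_mul]
  congr 3
  group

variable (κ c)

/-- the transfer -/
def trl' [Fintype (Q κ.range)] {r0 : R} (hr : ∀ y, r0 * y = y * r0) (P : ModuleCat.{0} (MonoidAlgebra ℤ H)) :
    BCG c P →ₗ[R] BCG (c.comp κ) ((rs κ).obj P) :=
  Submodule.liftQ (bcR c P) (∑ q : Q κ.range, trp κ c r0 q.out P) (by
    rw [bcR, Submodule.span_le]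
    rintro z ⟨x, h, p, rfl⟩
    rw [SetLike.mem_coe, LinearMap.mem_ker, map_sub, sub_eq_zero, LinearMap.sum_apply, LinearMap.sum_apply]
    have h1 := qsum_mul κ.range (fun g => trp κ c r0 g P
      (x ⊗ₜ[ℤ] ((MonoidAlgebra.single h (1 : ℤ) : MonoidAlgebra ℤ H) • p)))
      (fun k g => trp_inv hr P x _ k g) h⁻¹
    rw [← h1]
    refine Finset.sum_congr rfl fun q _ => ?_
    rw [trp_apply, trp_apply, smul_smul, MonoidAlgebra.single_mul_single, mul_one, inv_mul_cancel_right]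
    congr 2
    rw [mul_assoc, mul_inv_rev, inv_inv, map_mul, mul_assoc])

theorem trl'_mk [Fintype (Q κ.range)] {r0 : R} (hr : ∀ y, r0 * y = y * r0)
    (P : ModuleCat.{0} (MonoidAlgebra ℤ H)) (x : R) (p : P) :
    trl' κ c hr P (Submodule.Quotient.mk (x ⊗ₜ[ℤ] p)) = ∑ q : Q κ.range, trp κ c r0 q.out P (x ⊗ₜ[ℤ] p) := by
  unfold trl'
  rw [Submodule.liftQ_apply, LinearMap.sum_apply]

/-- the transfer, as a natural transformation -/
def tr' [Fintype (Q κ.range)] {r0 : R} (hr : ∀ y, r0 * y = y * r0) : bcF c ⟶ rs κ ⋙ bcF (c.comp κ) where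
  app P := ModuleCat.ofHom (trl' κ c hr P)
  naturality P P' f := by
    ext1
    apply bc_ind
    intro p
    show trl' κ c hr P' (bcM c f.hom (Submodule.Quotient.mk ((1 : R) ⊗ₜ[ℤ] p))) =
      bcM (c.comp κ) ((rs κ).map f).hom (trl' κ c hr P (Submodule.Quotient.mk ((1 : R) ⊗ₜ[ℤ] p)))
    rw [bcM_mk, trl'_mk, trl'_mk, map_sum]
    refine Finset.sum_congr rfl fun q _ => ?_
    rw [trp_apply, trp_apply]
    refine Eq.trans ?_ (bcM_mk _ _ _ _).symm
    congr 2
    exact (map_smul f.hom _ _).symm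

theorem tr_co [Fintype (Q κ.range)] {r0 : R} (hr : ∀ y, r0 * y = y * r0)
    (hm : (Fintype.card (Q κ.range) : R) * r0 = 1) : tr' κ c hr ≫ co κ c = 𝟙 _ := by
  ext P : 2
  ext1
  apply bc_ind
  intro p
  show coM κ c P (trl' κ c hr P (Submodule.Quotient.mk ((1 : R) ⊗ₜ[ℤ] p))) =
    Submodule.Quotient.mk ((1 : R) ⊗ₜ[ℤ] p)
  rw [trl'_mk, map_sum]
  have h1 : ∀ q : Q κ.range, coM κ c P (trp κ c r0 q.out P ((1 : R) ⊗ₜ[ℤ] p)) =
      (Submodule.Quotient.mk (r0 ⊗ₜ[ℤ] p) : BCG c P) := by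
    intro q
    rw [trp_apply]
    refine (co_mk κ c P _ _).trans ?_
    rw [mk_rel, one_mul, mul_assoc, hr, ← mul_assoc, ← map_mul, inv_mul_cancel, map_one, one_mul]
  rw [Finset.sum_congr rfl fun q _ => h1 q, Finset.sum_const, Finset.card_univ]
  have h2 : ∀ n : ℕ, (n • (Submodule.Quotient.mk (r0 ⊗ₜ[ℤ] p) : BCG c P)) =
      Submodule.Quotient.mk (((n : R) * r0) ⊗ₜ[ℤ] p) := by
    intro n
    induction n with
    | zero =>
      rw [zero_smul, Nat.cast_zero, zero_mul, TensorProduct.zero_tmul]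
      rfl
    | succ n ih =>
      rw [succ_nsmul, ih, Nat.cast_succ, add_mul, one_mul, TensorProduct.add_tmul]
      rfl
  rw [h2, hm]

/-- the trivial module restricts to the trivial module -/
def trivE : ((rs κ).obj (trivG H)) ≃ₗ[MonoidAlgebra ℤ K] (trivG K) where
  toFun := fun x : ℤ => (x : ℤ)
  invFun := fun x : ℤ => (x : ℤ)
  left_inv := fun _ => rfl
  right_inv := fun _ => rfl
  map_add' := fun _ _ => rfl
  map_smul' := fun a x => by
    have h1 : augG H (inc κ a) = augG K a := by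
      induction a using MonoidAlgebra.induction_linear with
      | zero => simp
      | add x y hx hy => rw [map_add, map_add, map_add, hx, hy]
      | single k n =>
        rw [inc_single]
        simp [augG]
    show augG H (inc κ a) * (show ℤ from x) = augG K a * (show ℤ from x)
    rw [h1]

/-- the derived functors of a composition with the restriction -/
theorem lder (hκ : Function.Injective κ) (F : ModuleCat.{0} (MonoidAlgebra ℤ K) ⥤ ModuleCat.{0} R) [F.Additive]
    (n : ℕ) (Z : ModuleCat.{0} (MonoidAlgebra ℤ H)) :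
    Nonempty (((rs κ ⋙ F).leftDerived n).obj Z ≅ (F.leftDerived n).obj ((rs κ).obj Z)) := by
  have := rs_proj κ hκ
  let P := projectiveResolution Z
  let P' := (rs κ).mapProjectiveResolution P
  exact ⟨P.isoLeftDerivedObj (rs κ ⋙ F) n ≪≫ (P'.isoLeftDerivedObj F n).symm⟩

/-- **The transfer embeds the homology of `H` into the homology of a subgroup of finite index.** -/
theorem emb [Fintype (Q κ.range)] (hκ : Function.Injective κ) {r0 : R} (hr : ∀ y, r0 * y = y * r0)
    (hm : (Fintype.card (Q κ.range) : R) * r0 = 1) (n : ℕ) :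
    ∃ f : ((bcF c).leftDerived n).obj (trivG H) →ₗ[R] ((bcF (c.comp κ)).leftDerived n).obj (trivG K),
      Function.Injective f := by
  obtain ⟨e1⟩ := lder κ hκ (bcF (c.comp κ)) n (trivG H)
  have h1 : NatTrans.leftDerived (tr' κ c hr) n ≫ NatTrans.leftDerived (co κ c) n = 𝟙 _ := by
    rw [← NatTrans.leftDerived_comp, tr_co κ c hr hm, NatTrans.leftDerived_id]
  have h2 := congrArg (fun t => t.app (trivG H)) h1
  let e2 : (rs κ).obj (trivG H) ≅ trivG K := LinearEquiv.toModuleIso (trivE κ)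
  let g : ((bcF c).leftDerived n).obj (trivG H) ⟶ ((bcF (c.comp κ)).leftDerived n).obj (trivG K) :=
    (NatTrans.leftDerived (tr' κ c hr) n).app (trivG H) ≫ e1.hom ≫ ((bcF (c.comp κ)).leftDerived n).map e2.hom
  have hmono : Mono ((NatTrans.leftDerived (tr' κ c hr) n).app (trivG H)) := by
    have : IsSplitMono ((NatTrans.leftDerived (tr' κ c hr) n).app (trivG H)) :=
      IsSplitMono.mk' ⟨(NatTrans.leftDerived (co κ c) n).app (trivG H), h2⟩
    infer_instance
  have hg : Mono g := by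
    have : Mono (e1.hom ≫ ((bcF (c.comp κ)).leftDerived n).map e2.hom) := inferInstance
    exact mono_comp _ _
  exact ⟨g.hom, (ModuleCat.mono_iff_injective g).1 hg⟩

end

end Pool.Agent.V5helper75.BR
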