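import Pool.Agent.V5helper75.BR.Ore
import Pool.Agent.V5helper75.BR.Tr

/-!
# The `L²`-Betti numbers of the groups commensurable with a right-angled Coxeter group
-/

set_option autoImplicit false
set_option linter.unusedSectionVars false

noncomputable section

namespace Pool.Agent.V5helper75.BR

open Pool.Agent.W907.SG Pool.Agent.W461.SGN Pool.Agent.N496.CV Pool.Agent.N496.LT Pool.Agent.RK
open Pool.Agent.Helper655.VN
open Pool.Agent.N496.CV.FinAux (FM luck_zero tors cell exists_cell cell_inj cell_deg sum_cell d_apply act_apply act)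

attribute [local instance] VN831.bcFunctor_additive VN831.viaAdd VN831.viaMod V7N.bcF_additive
  V7N.rmAdd V7N.rmMod

theorem topcf_mul {H : Type} [Group H] (h g : H) (x : NG H) : topcf h (x * canL g⁻¹) = topcf (h * g) x := by
  have h1 : ((x * canL g⁻¹ : NG H) : EllTwo H →L[ℂ] EllTwo H) (dl 1) =
      (x : EllTwo H →L[ℂ] EllTwo H) (lam H g⁻¹ (dl 1)) := rfl
  rw [topcf_apply, h1, lam_dl, mul_one, coef_apply, inv_inv, topcf_apply]

theorem tors_iso {S M M' : Type} [Ring S] [AddCommGroup M] [Module S M] [AddCommGroup M'] [Module S M']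
    (f : M ≃ₗ[S] M') (h : ∀ m : M', ∃ s : S, Nz s ∧ s • m = 0) (m : M) : ∃ s : S, Nz s ∧ s • m = 0 := by
  obtain ⟨s, hs, hs0⟩ := h (f m)
  refine ⟨s, hs, f.injective ?_⟩
  rw [map_smul, map_zero]
  exact hs0

section

variable {V : Type} [Fintype V] [LinearOrder V] {G : SimpleGraph V}

/-- harmonic chains with coefficients in the von Neumann algebra of an overgroup vanish -/
theorem harm_zero' {K : Subgroup (W G)} [K.FiniteIndex] {i : ℕ} (hvan : L2Van G i) {H : Type} [Group H]
    (κ : K →* H) (hκ : Function.Injective κ) {z : Finset V → W G → NG H}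
    (hz : IsCh G Set.univ (Eqv K ((canL : H →* NG H).comp κ)) i z) (hb : bdf G z = 0) (hc : cbd G z = 0) :
    z = 0 := by
  classical
  have hsum : ∀ (h : H) (T : Finset V), Summable fun w : W G => ‖topcf h (z T w)‖ ^ 2 := by
    intro h T
    have hf : Fintype (Q K) := Fintype.ofFinite _
    have hF : Summable fun y : Q K × H => ‖topcf y.2 (z T y.1.out)‖ ^ 2 := by
      rw [summable_prod_of_nonneg (fun _ => by positivity)]
      exact ⟨fun q => topcf_summable (z T q.out), Summable.of_finite⟩
    have hinj : Function.Injective fun w : W G => ((cl K w, h * κ (kp K w)) : Q K × H) := by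
      intro w w' hww
      have h1 := (Prod.mk.inj hww).1
      have h2 := hκ (mul_left_cancel (Prod.mk.inj hww).2)
      rw [← kp_mul K w, ← kp_mul K w', h1, h2]
    refine (hF.comp_injective hinj).congr fun w => ?_
    have h3 : z T w = z T (cl K w).out * canL (κ (kp K w))⁻¹ := by
      conv_lhs => rw [← kp_mul K w, hz.mem]
      rw [MonoidHom.comp_apply, map_inv]
    simp only [Function.comp_apply]
    rw [h3, topcf_mul]
  have hγ : ∀ (h : H) T w, topcf h (z T w) = 0 := by
    intro h T w
    have h0 : ∀ ℓ : ℂ →+ ℝ, (∀ y, |ℓ y| ≤ ‖y‖) → ℓ (topcf h (z T w)) = 0 := by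
      intro ℓ hℓ
      have key := hvan (fun w T => ℓ (topcf h (z T w))) ?_
      · exact congrFun (congrFun key w) T
      · refine ⟨?_, ?_, ?_, ?_, ?_⟩
        · intro w T hT
          rw [hz.supp T fun h => hT ⟨h.1, h.2.2⟩, Pi.zero_apply, map_zero, map_zero]
        · intro w T t ht
          rw [hz.anti T t ht, map_neg, map_neg]
        · have h1 : ∀ T : Finset V, Summable fun w => (ℓ (topcf h (z T w))) ^ 2 := by
            intro T
            refine Summable.of_nonneg_of_le (fun _ => sq_nonneg _) (fun w => ?_) (hsum h T)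
            rw [← sq_abs]
            exact pow_le_pow_left₀ (abs_nonneg _) (hℓ _) 2
          have h2 : Summable fun x : Finset V × W G => (ℓ (topcf h (z x.1 x.2))) ^ 2 := by
            rw [summable_prod_of_nonneg (fun _ => sq_nonneg _)]
            exact ⟨h1, Summable.of_finite⟩
          exact ((Equiv.prodComm (W G) (Finset V)).summable_iff
            (f := fun x : Finset V × W G => (ℓ (topcf h (z x.1 x.2))) ^ 2)).2 h2
        · intro w T
          have h1 := congrArg (fun a => ℓ (topcf h a)) (congrFun (congrFun hb T) w)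
          simp only [bdf, Pi.zero_apply, map_zero, map_sum, map_zsmul] at h1
          simpa only [zsmul_eq_mul] using h1
        · intro w T hT
          have h1 := congrArg (fun a => ℓ (topcf h a)) (congrFun (congrFun hc T) w)
          simp only [cbd, if_pos hT, Pi.zero_apply, map_zero, map_sum, map_zsmul, map_sub] at h1
          simpa only [zsmul_eq_mul] using h1
    refine Complex.ext ?_ ?_
    · exact h0 Complex.reAddGroupHom (fun y => Complex.abs_re_le_norm y)
    · exact h0 Complex.imAddGroupHom (fun y => Complex.abs_im_le_norm y)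
  funext T w
  apply topcf_ext
  intro h
  exact hγ h T w

/-- the homology of the complex of functions is torsion -/
theorem tors2 (K : Subgroup (W G)) (n : ℕ) {S : Type} [Ring S] {Wr : Type} [Ring Wr]
    (c : K →* S) (j : S →+* Wr) (cW : (th G).ker →* Wr) (i : K →* (th G).ker) (hi : Function.Injective i)
    (hiv : ∀ k, ((i k : (th G).ker) : W G) = k) (hc : ∀ k, j (c k) = cW (i k))
    (hind : VN831.CosetIndep j cW i.range)
    (H' : ∀ v, FV K c (n + 1) v → mulD v = 0 → ∃ s : S, Nz s ∧
      ∃ e, FV K c (n + 2) e ∧ mulD e = fun i g => s * v i g)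
    (m : VN831.HR j cW (((davis G).toFree.d (n + 1)).map (V7N.evM cW)) (((davis G).toFree.d n).map (V7N.evM cW))) :
    ∃ s : S, Nz s ∧ s • m = 0 := by
  classical
  refine tors (i := i) hi hc hind ((davis G).toFree.d (n + 1)) ((davis G).toFree.d n) Nz (fun v hv => ?_) m
  let v' : (davis G).ι → (th G).ker → S := fun x => if h : ∃ k, cell (davis G) (n + 1) k = x then (v h.choose).1
    else 0
  have hv1 : ∀ k, v' (cell (davis G) (n + 1) k) = (v k).1 := by
    intro k
    have h : ∃ k', cell (davis G) (n + 1) k' = cell (davis G) (n + 1) k := ⟨k, rfl⟩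
    have h5 : v' (cell (davis G) (n + 1) k) = (v h.choose).1 := dif_pos h
    rw [h5, cell_inj _ _ h.choose_spec]
  have hv0 : ∀ x, (davis G).deg x ≠ n + 1 → v' x = 0 := by
    intro x hx
    refine dif_neg ?_
    rintro ⟨k, rfl⟩
    exact hx (cell_deg _ _ k)
  have hFV : FV K c (n + 1) v' := by
    refine ⟨hv0, fun x h g g' hg => ?_, ?_⟩
    · by_cases hx : (davis G).deg x = n + 1
      · obtain ⟨k, rfl⟩ := exists_cell _ hx
        have h5 : g' = i h * g := Subtype.ext (by rw [hg, Subgroup.coe_mul, hiv])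
        rw [hv1, h5]
        exact (v k).2.eq h g
      · rw [hv0 x hx]
        exact (zero_mul _).symm
    · have h5 : ∀ k, ∃ T : Finset (th G).ker, ∀ g, (v k).1 g ≠ 0 → ∃ h : K, ∃ x ∈ T, g = i h * x :=
        fun k => (v k).2.fin
      choose T hT using h5
      refine ⟨Finset.univ.biUnion T, fun x g hg => ?_⟩
      by_cases hx : (davis G).deg x = n + 1
      · obtain ⟨k, rfl⟩ := exists_cell _ hx
        rw [hv1] at hg
        obtain ⟨h, y, hy, e⟩ := hT k g hg
        exact ⟨h, y, Finset.mem_biUnion.2 ⟨k, Finset.mem_univ k, hy⟩, by rw [e, Subgroup.coe_mul, hiv]⟩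
      · exact absurd (congrFun (hv0 x hx) g) hg
  have hcyc : mulD v' = 0 := by
    funext y g
    by_cases hy : (davis G).deg y = n
    · obtain ⟨l, rfl⟩ := exists_cell _ hy
      have h5 := congrFun (congrArg Subtype.val (hv l)) g
      rw [Submodule.coe_sum, Finset.sum_apply] at h5
      refine Eq.trans ?_ h5
      unfold mulD
      rw [← sum_cell (davis G) (n + 1)]
      · refine Finset.sum_congr rfl fun k _ => ?_
        rw [act_apply, hv1, d_apply]
      · intro x hx
        rw [hv0 x hx]
        simp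
    · refine Finset.sum_eq_zero fun x _ => ?_
      by_cases hx : (davis G).deg x = n + 1
      · have h5 : (davis G).D x y = 0 := by
          by_contra h5
          have := (davis G).D_deg x y h5
          omega
        rw [h5]
        simp
      · rw [hv0 x hx]
        simp
  obtain ⟨s, hs, e, he, hse⟩ := H' v' hFV hcyc
  refine ⟨s, hs, fun m => ⟨e (cell (davis G) (n + 1 + 1) m), ?_⟩, fun k => ?_⟩
  · refine ⟨fun h g => he.eqK _ h g _ (by rw [Subgroup.coe_mul, hiv]), ?_⟩
    obtain ⟨T, hT⟩ := he.fin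
    refine ⟨T, fun g hg => ?_⟩
    obtain ⟨h, x, hx, e1⟩ := hT _ g hg
    exact ⟨h, x, hx, Subtype.ext (by rw [e1, Subgroup.coe_mul, hiv])⟩
  · apply Subtype.ext
    funext g
    rw [Submodule.coe_sum, Finset.sum_apply]
    have h5 := congrFun (congrFun hse (cell (davis G) (n + 1) k)) g
    have h6 : s * v' (cell (davis G) (n + 1) k) g = (s • v k).1 g := by
      rw [hv1]
      rfl
    refine Eq.trans ?_ (h5.trans h6)
    unfold mulD
    rw [← sum_cell (davis G) (n + 1 + 1)]
    · refine Finset.sum_congr rfl fun m _ => ?_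
      rw [act_apply, d_apply]
    · intro x hx
      rw [he.deg x hx]
      simp

theorem hres0 : RES := res (dac len) CB.conv

theorem comp_iso {Γ : Type} [Group Γ] (C : GCx Γ) (ε : (Fin (C.toFree.rank 0) → MonoidAlgebra ℤ Γ) →+ ℤ)
    (h1 : ∀ (g : Γ) v, ε (fun i => MonoidAlgebra.single g (1 : ℤ) * v i) = ε v)
    (h2 : Function.Surjective ε) (h3 : ∀ v, ε v = 0 ↔ ∃ w, v = Matrix.vecMul w (C.toFree.d 0))
    (h4 : ∀ n v, Matrix.vecMul v (C.toFree.d n) = 0 ↔ ∃ w, v = Matrix.vecMul w (C.toFree.d (n + 1)))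
    {K : Type} [Group K] (n : ℕ) {S : Type} [Ring S] {Wr : Type} [Ring Wr]
    (c : K →* S) (j : S →+* Wr) (cW : Γ →* Wr) (i : K →* Γ) (hi : Function.Injective i)
    (hc : ∀ k, j (c k) = cW (i k)) (hind : VN831.CosetIndep j cW i.range) :
    Nonempty ((((V7N.bcF c).leftDerived (n + 1)).obj (V7N.trivG K)) ≃ₗ[S]
      VN831.HR j cW ((C.toFree.d (n + 1)).map (V7N.evM cW)) ((C.toFree.d n).map (V7N.evM cW))) := by
  exact V7N.v7_succ ⟨C.toFree.rank, C.toFree.d, ε, h1, h2, h3, h4⟩ n i hi c cW j hc hind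

/-- the homology of a subgroup of the kernel, with coefficients in a larger von Neumann algebra, is torsion -/
theorem final2 (K : Subgroup (W G)) (n : ℕ) {S : Type} [Ring S] {Wr : Type} [Ring Wr]
    (c : K →* S) (j : S →+* Wr) (cW : (th G).ker →* Wr) (i : K →* (th G).ker) (hi : Function.Injective i)
    (hiv : ∀ k, ((i k : (th G).ker) : W G) = k) (hc : ∀ k, j (c k) = cW (i k))
    (hind : VN831.CosetIndep j cW i.range)
    (H' : ∀ v, FV K c (n + 1) v → mulD v = 0 → ∃ s : S, Nz s ∧
      ∃ e, FV K c (n + 2) e ∧ mulD e = fun i g => s * v i g)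
    (m : ((V7N.bcF c).leftDerived (n + 1)).obj (V7N.trivG K)) : ∃ s : S, Nz s ∧ s • m = 0 := by
  obtain ⟨ε, h1, h2, h3, h4⟩ := hres0 V G
  obtain ⟨f⟩ := comp_iso (davis G) ε h1 h2 h3 h4 n c j cW i hi hc hind
  exact tors_iso f (tors2 K n c j cW i hi hiv hc hind H') m

/-- **The homology of the subgroups of the kernel, with coefficients in the von Neumann algebra of an overgroup**,
if the Davis complex has no `ℓ²` harmonic chains. -/
theorem tor_zero {n : ℕ} (hvan : L2Van G (n + 1)) {K : Subgroup (W G)} [K.FiniteIndex] (hK : K ≤ (th G).ker)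
    {H : Type} [Group H] (κ : K →* H) (hκ : Function.Injective κ) {Wr : Type} [Ring Wr]
    (j : NG H →+* Wr) (cW : (th G).ker →* Wr)
    (hc : ∀ k, j (canL (κ k)) = cW (Subgroup.inclusion hK k))
    (hind : VN831.CosetIndep j cW (Subgroup.inclusion hK).range)
    (m : ((V7N.bcF ((canL : H →* NG H).comp κ)).leftDerived (n + 1)).obj (V7N.trivG K)) :
    ∃ s : NG H, Nz s ∧ s • m = 0 := by
  classical
  have hfQ : Fintype (Q K) := Fintype.ofFinite _
  obtain ⟨u, hu⟩ : ∃ u : K →* NG H, u = (canL : H →* NG H).comp κ := ⟨_, rfl⟩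
  have hst : ∀ h : K, u h * star (u h) = 1 := by
    intro h
    rw [hu, MonoidHom.comp_apply]
    have h1 : star (canL (κ h) : NG H) = canL (κ h)⁻¹ := Subtype.ext (star_lam (κ h))
    rw [h1, ← map_mul, mul_inv_cancel, map_one]
  have hharm : ∀ z, IsCh G Set.univ (Eqv K u) (n + 1) z → bdf G z = 0 → cbd G z = 0 → z = 0 := by
    intro z hz hb hc
    rw [hu] at hz
    exact harm_zero' hvan κ hκ hz hb hc
  have hm := final2 K n u j cW (Subgroup.inclusion hK) (Subgroup.inclusion_injective hK) (fun k => rfl)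
    (fun k => by rw [hu]; exact hc k) hind (fun v hv hv0 => ?_)
  · subst hu
    exact hm m
  obtain ⟨Ψ, p1, p2, p3, p4, p5, p6⟩ := CB.conv V G K (NG H) u hK
  have hΨ0 : Ψ 0 = 0 := by
    have := p4 0 0
    rw [add_zero] at this
    exact (left_eq_add.1 this)
  have h1 := p1 (n + 1) v hv
  have h2 : IsCh G Set.univ (Eqv K u) (n + 1) (Ψ v) := ⟨h1.supp, fun T => (inM_iff K _ _).1 (h1.mem T), h1.anti⟩
  have h3 : bdf G (Ψ v) = 0 := by rw [← p5 (n + 1) v hv, hv0, hΨ0]
  obtain ⟨s, hs, w, hw, hsw⟩ := ore (vn_NG (G := H)) hK u hst hharm h2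
  have h4 : bdf G (fun T x => s * Ψ v T x) = 0 := by
    rw [bdf_smul, h3]
    funext T x
    simp
  have h5 := bdry_of (vn_NG (G := H)) hst hw h4 hsw
  have h6 := ch_cbd hw
  obtain ⟨e, he, hee⟩ := p2 (n + 2) (cbd G w) ⟨h6.supp, fun T => (inM_iff K _ _).2 (h6.mem T), h6.anti⟩
  refine ⟨s, hs, e, he, ?_⟩
  apply p3
  rw [p5 (n + 2) e he, hee, h5]
  funext T x
  exact (p6 s v T x).symm

end

end Pool.Agent.V5helper75.BR
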