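import Pool.Agent.V5helper75.BR.Com

/-!
# The `L²`-Betti numbers of the groups commensurable with a right-angled Coxeter group: the main theorem
-/

set_option autoImplicit false
set_option linter.unusedSectionVars false

open scoped ENNReal InnerProductSpace

noncomputable section

namespace Pool.Agent.V5helper75.BR

open Pool.Agent.W907.SG Pool.Agent.W461.SGN Pool.Agent.N496.CV Pool.Agent.N496.LT Pool.Agent.RK
open Pool.Agent.Helper655.VN
open Pool.Agent.Helper277.VN5 (jN jN_canL jN_indep)

attribute [local instance] VN831.bcFunctor_additive VN831.viaAdd VN831.viaMod V7N.bcF_additive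
  V7N.rmAdd V7N.rmMod

/-- the von Neumann algebra of an isomorphic group -/
theorem isVN_iso {H H0 : Type} [Group H] [Group H0] (e : H ≃* H0) :
    IsVN ((canL : H0 →* NG H0).comp e.toMonoidHom) (fun x => (tr x).re) (fun h => (dl (e h) : EllTwo H0))
      ((NG H0).subtype : NG H0 →+* (EllTwo H0 →L[ℂ] EllTwo H0)) := by
  have h := isVN_NG H0
  refine ⟨h.orth.comp e e.injective, ?_, h.inj, fun T => ?_, fun g h' => ?_, fun x => ?_⟩
  · have h1 : Set.range (fun g => (dl (e g) : EllTwo H0)) = Set.range (dl : H0 → EllTwo H0) :=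
      e.surjective.range_comp dl
    rw [h1]
    exact h.dense
  · rw [h.range T]
    constructor
    · intro h1 g R hR ξ
      refine h1 (e g) R (fun k => ?_) ξ
      have h2 := hR (e.symm k)
      simp only [map_mul, MulEquiv.apply_symm_apply] at h2
      exact h2
    · intro h1 g R hR ξ
      refine h1 (e.symm g) R (fun k => ?_) ξ
      simp only [map_mul, MulEquiv.apply_symm_apply]
      exact hR _
  · have h1 := h.left (e g) (e h')
    simp only [map_mul]
    exact h1
  · simp only [map_one]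
    exact h.trace x

theorem bettiOf {H H0 : Type} [Group H] [Group H0] (e : H ≃* H0) (k : ℕ)
    (h : ∀ m : ((V7N.bcF ((canL : H0 →* NG H0).comp e.toMonoidHom)).leftDerived k).obj (V7N.trivG H),
      ∃ s : NG H0, Nz s ∧ s • m = 0) : HasL2Betti H k 0 := by
  refine HasL2Betti.mk (NG H0) (EllTwo H0) ((canL : H0 →* NG H0).comp e.toMonoidHom) (fun x => (tr x).re)
    (fun h => (dl (e h) : EllTwo H0)) _ (isVN_iso e) ?_
  exact FinAux.luck_zero h

theorem finQ {H : Type} [Group H] (K : Subgroup H) (hK : K.FiniteIndex) : Finite (Q K) := by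
  have := Subgroup.finite_quotient_of_finiteIndex (H := K)
  exact Finite.of_equiv _ (QuotientGroup.quotientRightRelEquivQuotientLeftRel K).symm

theorem natCast_smul {A : Type} [Ring A] [Algebra ℂ A] (m : ℕ) (hm : (m : ℂ) ≠ 0) :
    (∀ y : A, ((m : ℂ)⁻¹ • (1 : A)) * y = y * ((m : ℂ)⁻¹ • (1 : A))) ∧ (m : A) * ((m : ℂ)⁻¹ • (1 : A)) = 1 := by
  refine ⟨fun y => by rw [smul_mul_assoc, one_mul, mul_smul_comm, mul_one], ?_⟩
  have h3 : (m : A) = (m : ℂ) • (1 : A) := by
    rw [Nat.cast_smul_eq_nsmul ℂ, nsmul_one]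
  rw [mul_smul_comm, mul_one, h3, smul_smul, inv_mul_cancel₀ hm, one_smul]

/-- different cosets are independent -/
theorem coset_jN {Γ E : Type} [Group Γ] [Group E] (p : Γ →* E) (hp : Function.Injective p) (F : Subgroup E)
    (L : Subgroup Γ) (hL : ∀ g, p g ∈ F → g ∈ L) : VN831.CosetIndep (jN F) ((canL : E →* NG E).comp p) L := by
  classical
  intro s hs x hx g hg
  let x' : E → NG F := fun y => if h : ∃ g, p g = y then x h.choose else 0
  have hx' : ∀ g, x' (p g) = x g := by
    intro g
    have h3 : ∃ g', p g' = p g := ⟨g, rfl⟩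
    have h4 : x' (p g) = x h3.choose := dif_pos h3
    rw [h4, hp h3.choose_spec]
  have h5 := jN_indep F (s.map ⟨p, hp⟩) x' ?_ ?_ (p g) (Finset.mem_map_of_mem _ hg)
  · rw [← hx' g]
    exact h5
  · intro y hy y' hy' hne hmem
    obtain ⟨a, ha, rfl⟩ := Finset.mem_map.1 hy
    obtain ⟨a', ha', rfl⟩ := Finset.mem_map.1 hy'
    refine hs a ha a' ha' (fun h => hne (by rw [h])) (hL _ ?_)
    rw [map_mul, map_inv]
    exact hmem
  · rw [Finset.sum_map, ← hx]
    refine Finset.sum_congr rfl fun g _ => ?_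
    show jN F (x' (p g)) * _ = _
    rw [hx' g]
    rfl

section

variable {V : Type} [Fintype V] [LinearOrder V] {G : SimpleGraph V}

/-- the transferred statement -/
theorem down {n : ℕ} {K H F : Type} [Group K] [Group H] [Group F] (κ : K →* H) (hκ : Function.Injective κ)
    (hfi : κ.range.FiniteIndex) (e : H ≃* F) (κ0 : K →* F) (he : ∀ k, e (κ k) = κ0 k)
    (key : ∀ m : ((V7N.bcF ((canL : F →* NG F).comp κ0)).leftDerived n).obj (V7N.trivG K),
      ∃ s : NG F, Nz s ∧ s • m = 0) : HasL2Betti H n 0 := by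
  classical
  have hQf := finQ _ hfi
  have hQ : Fintype (Q κ.range) := Fintype.ofFinite _
  have hm0 : (Fintype.card (Q κ.range) : ℂ) ≠ 0 := by
    have : Nonempty (Q κ.range) := ⟨cl κ.range 1⟩
    exact_mod_cast Fintype.card_ne_zero
  obtain ⟨a1, a2⟩ := natCast_smul (A := NG F) (Fintype.card (Q κ.range)) hm0
  have key' : ∀ u : K →* NG F, u = (canL : F →* NG F).comp κ0 →
      ∀ m : ((V7N.bcF u).leftDerived n).obj (V7N.trivG K), ∃ s : NG F, Nz s ∧ s • m = 0 := by
    intro u hu
    subst hu
    exact key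
  have hcomp : ((canL : F →* NG F).comp e.toMonoidHom).comp κ = (canL : F →* NG F).comp κ0 :=
    MonoidHom.ext fun k => congrArg (canL : F →* NG F) (he k)
  have key2 := key' _ hcomp
  obtain ⟨g, hg⟩ := emb κ ((canL : F →* NG F).comp e.toMonoidHom) hκ a1 a2 n
  refine bettiOf e n fun m => ?_
  obtain ⟨s, hs, hs0⟩ := key2 (g m)
  refine ⟨s, hs, hg ?_⟩
  rw [map_smul, map_zero]
  exact hs0

/-- **The `L²`-Betti numbers of the groups commensurable with a right-angled Coxeter group.** Let the Davis complex of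
`W G` have no nonzero `ℓ²` harmonic `(n+1)`-chains. If the group `H` and the kernel `Γ` of `W G → (ℤ/2)^V` are
commensurable subgroups of a group `E`, then the `(n+1)`-st `L²`-Betti number of `H` vanishes. -/
theorem betti_com {n : ℕ} (hvan : L2Van G (n + 1)) {E : Type} [Group E] (p : (th G).ker →* E)
    (hp : Function.Injective p) {H : Type} [Group H] (f : H →* E) (hf : Function.Injective f)
    (h1 : (f.range.comap p).FiniteIndex) (h2 : (p.range.comap f).FiniteIndex) : HasL2Betti H (n + 1) 0 := by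
  classical
  obtain ⟨K, hKd⟩ : ∃ K : Subgroup (W G), K = (f.range.comap p).map (th G).ker.subtype := ⟨_, rfl⟩
  have hKm : ∀ w : W G, w ∈ K ↔ ∃ hw : w ∈ (th G).ker, p ⟨w, hw⟩ ∈ f.range := by
    intro w
    rw [hKd]
    constructor
    · rintro ⟨x, hx, rfl⟩
      exact ⟨x.2, hx⟩
    · rintro ⟨hw, hx⟩
      exact ⟨⟨w, hw⟩, hx, rfl⟩
  have hK : K ≤ (th G).ker := fun w hw => ((hKm w).1 hw).1
  have hKfi : K.FiniteIndex := by
    constructor
    rw [hKd, Subgroup.index_map_subtype]
    exact Nat.mul_ne_zero h1.index_ne_zero Subgroup.FiniteIndex.index_ne_zero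
  let e : H ≃* f.range := MonoidHom.ofInjective hf
  have he : ∀ h, ((e h : f.range) : E) = f h := fun h => rfl
  -- the embedding of `K`
  let κ0 : K →* f.range :=
    { toFun := fun k => ⟨p (Subgroup.inclusion hK k), ((hKm k.1).1 k.2).2⟩
      map_one' := Subtype.ext (by simp)
      map_mul' := fun a b => Subtype.ext (by simp) }
  have hκ0 : Function.Injective κ0 := by
    intro a b hab
    have h3 := hp (congrArg Subtype.val hab)
    exact Subgroup.inclusion_injective hK h3
  let κ : K →* H := e.symm.toMonoidHom.comp κ0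
  have hκ : Function.Injective κ := e.symm.injective.comp hκ0
  have hκe : ∀ k, e (κ k) = κ0 k := fun k => e.apply_symm_apply _
  have hr : κ.range = p.range.comap f := by
    ext h
    constructor
    · rintro ⟨k, rfl⟩
      rw [Subgroup.mem_comap, ← he, hκe]
      exact ⟨_, rfl⟩
    · intro h3
      rw [Subgroup.mem_comap] at h3
      obtain ⟨x, hx⟩ := h3
      have hxK : (x : W G) ∈ K := (hKm x).2 ⟨x.2, by
        have : p ⟨(x : W G), x.2⟩ = f h := hx
        rw [this]
        exact ⟨h, rfl⟩⟩
      refine ⟨⟨x, hxK⟩, e.injective ?_⟩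
      rw [hκe]
      apply Subtype.ext
      rw [he]
      exact hx
  have hrfi : κ.range.FiniteIndex := by rw [hr]; exact h2
  refine down κ hκ hrfi e κ0 hκe ?_
  refine tor_zero hvan hK κ0 hκ0 (jN f.range) ((canL : E →* NG E).comp p) (fun k => ?_) ?_
  · rw [jN_canL]
    rfl
  · refine coset_jN p hp f.range _ fun g hg => ?_
    exact ⟨⟨g.1, (hKm _).2 ⟨g.2, hg⟩⟩, Subtype.ext rfl⟩

end

end Pool.Agent.V5helper75.BR
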