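import Pool.Agent.V5helper75.BR.Van
import Pool.Agent.N496.CV.L2Pf
import Pool.Agent.N496.CV.P_FINAL
import Pool.Agent.N496.CV.P_RES
import Pool.Agent.N496.CV.P_DAC
import Pool.Agent.N496.CV.P_LEN
import Pool.Agent.N496.CV.ConvB

/-!
# The `L²`-Betti numbers of the subgroups of finite index of the kernel
-/

set_option autoImplicit false
set_option linter.unusedSectionVars false

noncomputable section

namespace Pool.Agent.V5helper75.BR

open Pool.Agent.W907.SG Pool.Agent.W461.SGN Pool.Agent.N496.CV Pool.Agent.N496.LT Pool.Agent.RK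
open Pool.Agent.Helper655.VN

attribute [local instance] VN831.bcFunctor_additive VN831.viaAdd VN831.viaMod

section

variable {V : Type} [Fintype V] [LinearOrder V] {G : SimpleGraph V}

/-- **The Ore step**: up to a denominator every chain is in the image of the Laplacian. -/
theorem ore {R : Type} [Ring R] [StarRing R] {τ : R →+ ℝ} (hV : VN R τ) {K : Subgroup (W G)} [K.FiniteIndex]
    (hK : K ≤ (th G).ker) (u : K →* R) (hu : ∀ h, u h * star (u h) = 1) {n : ℕ}
    (hharm : ∀ z, IsCh G Set.univ (Eqv K u) (n + 1) z → bdf G z = 0 → cbd G z = 0 → z = 0)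
    {c : Finset V → W G → R} (hc : IsCh G Set.univ (Eqv K u) (n + 1) c) :
    ∃ s : R, Nz s ∧ ∃ w, IsCh G Set.univ (Eqv K u) (n + 1) w ∧
      bdf G (cbd G w) + cbd G (bdf G w) = fun T x => s * c T x := by
  classical
  have hfQ : Fintype (Q K) := Fintype.ofFinite _
  have hfi : (KK' K).FiniteIndex := inferInstance
  have hfQ' : Finite (Q (KK' K)) := by
    have := Subgroup.finite_quotient_of_finiteIndex (H := KK' K)
    exact Finite.of_equiv _ (QuotientGroup.quotientRightRelEquivQuotientLeftRel (KK' K)).symm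
  have hfQ2 : Fintype (Q (KK' K)) := Fintype.ofFinite _
  have hfC : Fintype (Cell G (n + 1)) := Fintype.ofFinite _
  obtain ⟨Ψ, p1, p2, p3, p4, p5, p6⟩ := CB.conv V G K R u hK
  obtain ⟨Θ, hΘ⟩ : ∃ Θ : (Cell G (n + 1) × Q (KK' K) → R) → (Finset V → W G → R),
      ∀ x, Θ x = Ψ (ext K u (n + 1) x) := ⟨_, fun _ => rfl⟩
  have q1 : ∀ x, IsCh G Set.univ (Eqv K u) (n + 1) (Θ x) := by
    intro x
    rw [hΘ]
    have h1 := p1 (n + 1) _ (fv_ext hK u (n + 1) x)
    exact ⟨h1.supp, fun T => (inM_iff K _ _).1 (h1.mem T), h1.anti⟩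
  have q2 : ∀ e, IsCh G Set.univ (Eqv K u) (n + 1) e → ∃ x, Θ x = e := by
    intro e he
    obtain ⟨v, hv, rfl⟩ := p2 (n + 1) e ⟨he.supp, fun T => (inM_iff K _ _).2 (he.mem T), he.anti⟩
    exact ⟨_, by rw [hΘ, ext_surj _ _ hv]⟩
  have q3 : ∀ x y, Θ (x + y) = Θ x + Θ y := by
    intro x y
    rw [hΘ, hΘ, hΘ, ext_add, p4]
  have q4 : ∀ (r : R) x, Θ (r • x) = fun T w => r * Θ x T w := by
    intro r x
    rw [hΘ, hΘ, ext_smul]
    funext T w
    exact p6 r _ T w
  have hΨ0 : Ψ 0 = 0 := by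
    have := p4 0 0
    rw [add_zero] at this
    exact (left_eq_add.1 this)
  have q5 : ∀ x, Θ x = 0 → x = 0 := by
    intro x hx
    rw [hΘ, ← hΨ0] at hx
    exact ext_inj _ _ (p3 hx)
  have hΘ0 : Θ 0 = 0 := by
    have := q3 0 0
    rw [add_zero] at this
    exact (left_eq_add.1 this)
  have q6 : ∀ x y, Θ x = Θ y → x = y := by
    intro x y h
    have h1 : Θ (x - y) + Θ y = Θ x := by rw [← q3, sub_add_cancel]
    rw [h] at h1
    exact sub_eq_zero.1 (q5 _ (by simpa using h1))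
  -- the Laplacian
  obtain ⟨Δ, hΔ⟩ : ∃ Δ : (Finset V → W G → R) → (Finset V → W G → R),
      ∀ z, Δ z = bdf G (cbd G z) + cbd G (bdf G z) := ⟨_, fun _ => rfl⟩
  have d1 : ∀ z, IsCh G Set.univ (Eqv K u) (n + 1) z → IsCh G Set.univ (Eqv K u) (n + 1) (Δ z) := by
    intro z hz
    rw [hΔ]
    exact C722.ch_add (lin_eqv K _) (C722.ch_bdf (lin_eqv K _) (ch_cbd hz)) (ch_cbd (C722.ch_bdf (lin_eqv K _) hz))
  have d2 : ∀ y z, Δ (y + z) = Δ y + Δ z := by
    intro y z
    rw [hΔ, hΔ, hΔ, cbd_add, C722.bdf_add, C722.bdf_add, cbd_add]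
    abel
  have d3 : ∀ (r : R) z, Δ (fun T w => r * z T w) = fun T w => r * Δ z T w := by
    intro r z
    rw [hΔ, hΔ, cbd_smul, bdf_smul, bdf_smul, cbd_smul]
    funext T w
    simp only [Pi.add_apply, mul_add]
  have hL : ∀ x, ∃ x', Θ x' = Δ (Θ x) := fun x => q2 _ (d1 _ (q1 x))
  choose L hL using hL
  let L' : (Cell G (n + 1) × Q (KK' K) → R) →ₗ[R] (Cell G (n + 1) × Q (KK' K) → R) :=
    { toFun := L
      map_add' := fun x y => q6 _ _ (by rw [hL, q3, q3, d2, hL, hL])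
      map_smul' := fun r x => q6 _ _ (by rw [hL, RingHom.id_apply, q4, q4, d3, hL]) }
  obtain ⟨M, hM⟩ : ∃ M : Matrix (Cell G (n + 1) × Q (KK' K)) (Cell G (n + 1) × Q (KK' K)) R,
      ∀ x, Matrix.vecMul x M = L x := by
    refine ⟨fun j j' => L' (fun j2 => if j = j2 then 1 else 0) j', fun x => ?_⟩
    have h1 : L x = L' x := rfl
    rw [h1, LinearMap.pi_apply_eq_sum_univ L' x]
    funext j'
    simp only [Matrix.vecMul, dotProduct, Finset.sum_apply, Pi.smul_apply, smul_eq_mul]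
  have hinj : ∀ x, Matrix.vecMul x M = 0 → x = 0 := by
    intro x hx
    rw [hM] at hx
    have h1 : Δ (Θ x) = 0 := by rw [← hL, hx, hΘ0]
    rw [hΔ] at h1
    obtain ⟨h2, h3⟩ := harm_of hV hu (q1 x) h1
    exact q5 _ (hharm _ (q1 x) h2 h3)
  obtain ⟨b, hb⟩ := q2 c hc
  obtain ⟨s, w, hs, hw⟩ := Pool.Agent.RK.OreMat.ore_mat hV M hinj b
  refine ⟨s, hs, Θ w, q1 w, ?_⟩
  have h1 : (s • b) = L w := by rw [← hM, ← hw]; rfl
  have h2 := hL w
  rw [← h1, q4, hΔ, hb] at h2
  exact h2.symm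

/-- **From the reduced `ℓ²`-homology of the Davis complex to the `L²`-Betti numbers of groups**: if the Davis complex
of `W G` has no nonzero `ℓ²` harmonic `i`-chains, then the `i`-th `L²`-Betti number of every subgroup of finite index of
the kernel of `W G → (ℤ/2)^V` vanishes. -/
theorem betti {K : Subgroup (W G)} [K.FiniteIndex] (hK : K ≤ (th G).ker) {n : ℕ} (hvan : L2Van G (n + 1)) :
    HasL2Betti K (n + 1) 0 := by
  classical
  have hfQ : Fintype (Q K) := Fintype.ofFinite _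
  have hst : ∀ h : K, (canL h : NG K) * star (canL h : NG K) = 1 := by
    intro h
    have h1 : star (canL h : NG K) = canL h⁻¹ := Subtype.ext (star_lam h)
    rw [h1, ← map_mul, mul_inv_cancel, map_one]
  have key : VN831.l2Betti K (n + 1) = 0 := by
    refine final (res (dac len) CB.conv) V G K n hK fun v hv hv0 => ?_
    obtain ⟨Ψ, p1, p2, p3, p4, p5, p6⟩ := CB.conv V G K (NG K) (canL : K →* NG K) hK
    have hΨ0 : Ψ 0 = 0 := by
      have := p4 0 0
      rw [add_zero] at this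
      exact (left_eq_add.1 this)
    have h1 := p1 (n + 1) v hv
    have h2 : IsCh G Set.univ (Eqv K (canL : K →* NG K)) (n + 1) (Ψ v) :=
      ⟨h1.supp, fun T => (inM_iff K _ _).1 (h1.mem T), h1.anti⟩
    have h3 : bdf G (Ψ v) = 0 := by rw [← p5 (n + 1) v hv, hv0, hΨ0]
    obtain ⟨s, hs, w, hw, hsw⟩ := ore (vn_NG (G := K)) hK (canL : K →* NG K) hst
      (fun z hz hb hc => harm_zero hvan hz hb hc) h2
    have h4 : bdf G (fun T x => s * Ψ v T x) = 0 := by
      rw [bdf_smul, h3]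
      funext T x
      simp
    have h5 := bdry_of (vn_NG (G := K)) hst hw h4 hsw
    have h6 := ch_cbd hw
    obtain ⟨e, he, hee⟩ := p2 (n + 2) (cbd G w) ⟨h6.supp, fun T => (inM_iff K _ _).2 (h6.mem T), h6.anti⟩
    refine ⟨s, hs, e, he, ?_⟩
    apply p3
    rw [p5 (n + 2) e he, hee, h5]
    funext T x
    exact (p6 s v T x).symm
  have h := hasL2Betti K (n + 1)
  rwa [key] at h

end

end Pool.Agent.V5helper75.BR
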