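import Pool.Agent.V5helper75.BR.Main
import Pool.Agent.V5helper75.BK.Class

/-!
# The conjecture of Davis and Okun for the groups commensurable with the right-angled Coxeter groups of the class `FG`
-/

set_option autoImplicit false
set_option linter.unusedSectionVars false

noncomputable section

namespace Pool.Agent.V5helper75.BR

open Pool.Agent.W907.SG Pool.Agent.W907.SM Pool.Agent.W461.SGN Pool.Agent.N496.CV Pool.Agent.V5helper75.BK

/-- restriction of a properly discontinuous action -/
theorem act_comp {K H X : Type} [Group K] [Group H] [TopologicalSpace X] [MulAction H X] [ContinuousConstSMul H X]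
    [ProperlyDiscontinuousSMul H X] (κ : K →* H) (hκ : Function.Injective κ) :
    letI := MulAction.compHom X κ
    ContinuousConstSMul K X ∧ ProperlyDiscontinuousSMul K X := by
  let _ : MulAction K X := MulAction.compHom X κ
  refine ⟨⟨fun k => ?_⟩, ⟨fun {A B} hA hB => ?_⟩⟩
  · exact continuous_const_smul (κ k)
  · have h := ProperlyDiscontinuousSMul.finite_disjoint_inter_image (Γ := H) hA hB
    exact h.preimage (f := κ) hκ.injOn

/-- **The conjecture for all the groups commensurable with `W K`** -/
theorem q1_com {V : Type} [Fintype V] [LinearOrder V] {K : SimpleGraph V} (hK : FG K) {E : Type} [Group E]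
    (p : W K →* E) (hp : Function.Injective p) {H : Type} [Group H] (f : H →* E) (hf : Function.Injective f)
    (h1 : (f.range.comap p).FiniteIndex) (h2 : (p.range.comap f).FiniteIndex)
    {X : Type} [TopologicalSpace X] [MulAction H X] [ContinuousConstSMul H X] [ProperlyDiscontinuousSMul H X]
    {n : ℕ} (e : X × X ≃ₜ (Fin (2 * n) → ℝ)) {i : ℕ} (hi : n < 2 * i) : HasL2Betti H i 0 := by
  classical
  -- the embedding of the intersection
  let F : H ≃* f.range := MonoidHom.ofInjective hf
  let κ : (f.range.comap p) →* H := F.symm.toMonoidHom.comp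
    { toFun := fun k => (⟨p k.1, k.2⟩ : f.range)
      map_one' := Subtype.ext (map_one p)
      map_mul' := fun a b => Subtype.ext (map_mul p _ _) }
  have hκf : ∀ k, f (κ k) = p k.1 := by
    intro k
    have h3 : F (κ k) = (⟨p k.1, k.2⟩ : f.range) := F.apply_symm_apply _
    exact congrArg Subtype.val h3
  have hκ : Function.Injective κ := by
    intro a b hab
    apply Subtype.ext
    apply hp
    rw [← hκf, ← hκf, hab]
  have hr : κ.range = p.range.comap f := by
    ext h
    constructor
    · rintro ⟨k, rfl⟩
      rw [Subgroup.mem_comap, hκf]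
      exact ⟨_, rfl⟩
    · rintro ⟨w, hw⟩
      refine ⟨⟨w, by rw [Subgroup.mem_comap, hw]; exact ⟨h, rfl⟩⟩, hf ?_⟩
      rw [hκf]
      exact hw
  -- the action of the intersection
  have hvan : L2Van K i := by
    obtain ⟨a1, a2⟩ := act_comp (X := X) κ hκ
    let _ : MulAction (f.range.comap p) X := MulAction.compHom X κ
    exact @geo_act V K hK.main.2 (f.range.comap p) h1 X _ _ a1 a2 n e i hi _ _
  obtain ⟨m, rfl⟩ : ∃ m, i = m + 1 := ⟨i - 1, by omega⟩
  refine betti_com hvan (p.comp (th K).ker.subtype) (hp.comp (th K).ker.subtype_injective) f hf ?_ ?_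
  · rw [← Subgroup.comap_comap]
    exact (inferInstance : ((Subgroup.comap p f.range).subgroupOf (th K).ker).FiniteIndex)
  · have h3 : (((th K).ker.subgroupOf (f.range.comap p)).map κ).FiniteIndex := by
      constructor
      rw [Subgroup.index_map_of_injective _ hκ, hr]
      exact Nat.mul_ne_zero Subgroup.FiniteIndex.index_ne_zero h2.index_ne_zero
    refine Subgroup.finiteIndex_of_le (H := ((th K).ker.subgroupOf (f.range.comap p)).map κ) ?_
    rintro _ ⟨k, hk, rfl⟩
    rw [Subgroup.mem_comap, hκf]
    exact ⟨⟨k.1, hk⟩, rfl⟩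

/-- the subgroups of finite index of `W K` -/
theorem q1_cox {V : Type} [Fintype V] [LinearOrder V] {K : SimpleGraph V} (hK : FG K) (H : Subgroup (W K))
    (hH : H.FiniteIndex) {X : Type} [TopologicalSpace X] [MulAction H X] [ContinuousConstSMul H X]
    [ProperlyDiscontinuousSMul H X] {n : ℕ} (e : X × X ≃ₜ (Fin (2 * n) → ℝ)) {i : ℕ} (hi : n < 2 * i) :
    HasL2Betti H i 0 := by
  refine q1_com hK (MonoidHom.id (W K)) Function.injective_id H.subtype H.subtype_injective ?_ ?_ e hi
  · rw [H.range_subtype]
    exact hH
  · rw [MonoidHom.range_eq_top.2 Function.surjective_id, Subgroup.comap_top]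
    infer_instance

end Pool.Agent.V5helper75.BR
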