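import Pool.Agent.V5helper75.BR.Main

/-!
# Induction of coefficients from a subgroup of finite index
-/

set_option autoImplicit false
set_option linter.unusedSectionVars false

noncomputable section

namespace Pool.Agent.V5helper75.BR

open CategoryTheory V7N

open scoped TensorProduct

attribute [local instance] bcF_additive V7N.rmAdd V7N.rmMod

section

variable {K H : Type} [Group K] [Group H] (κ : K →* H) {S R : Type} [Ring S] [Ring R] (cK : K →* S) (c : H →* R)
  (j : S →+* R)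

/-- the restriction of scalars -/
abbrev rj : ModuleCat.{0} R ⥤ ModuleCat.{0} S := ModuleCat.restrictScalars j

instance rj_lim : Limits.PreservesFiniteLimits (rj j) :=
  ⟨fun _ _ _ => ⟨inferInstance⟩⟩

instance rj_hom : (rj j).PreservesHomology := inferInstance

variable {κ cK c j}

/-- from `K` to `H`, over `j` -/
def ioM (hj : ∀ k, j (cK k) = c (κ k)) (P : ModuleCat.{0} (MonoidAlgebra ℤ H)) :
    BCG cK ((rs κ).obj P) →ₗ[S] ((rj j).obj (ModuleCat.of R (BCG c P))) :=
  Submodule.liftQ (bcR cK ((rs κ).obj P)) (TensorProduct.AlgebraTensorModule.lift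
    (LinearMap.toSpanSingleton S (((rs κ).obj P) →ₗ[ℤ] ((rj j).obj (ModuleCat.of R (BCG c P))))
      (show P →ₗ[ℤ] BCG c P from ((bcR c P).mkQ.restrictScalars ℤ).comp (TensorProduct.mk ℤ R P 1)))) (by
    rw [bcR, Submodule.span_le]
    rintro z ⟨x, g, p, rfl⟩
    rw [SetLike.mem_coe, LinearMap.mem_ker, map_sub, sub_eq_zero, TensorProduct.AlgebraTensorModule.lift_tmul,
      TensorProduct.AlgebraTensorModule.lift_tmul]
    have h1 : (Submodule.Quotient.mk ((1 : R) ⊗ₜ[ℤ] (show P from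
        ((MonoidAlgebra.single g (1 : ℤ) : MonoidAlgebra ℤ K) • (show (rs κ).obj P from p) : (rs κ).obj P))) :
          BCG c P) = Submodule.Quotient.mk (((1 : R) * c (κ g)) ⊗ₜ[ℤ] (show P from p)) :=
      (congrArg (fun y : P => (Submodule.Quotient.mk ((1 : R) ⊗ₜ[ℤ] y) : BCG c P)) (rs_smul κ P g p)).trans
        (mk_rel c P (1 : R) (κ g) (show P from p))
    have h2 : ∀ (r : R) (y : P), r • (Submodule.Quotient.mk ((1 : R) ⊗ₜ[ℤ] y) : BCG c P) =
        Submodule.Quotient.mk (r ⊗ₜ[ℤ] y) := by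
      intro r y
      rw [← Submodule.Quotient.mk_smul, TensorProduct.smul_tmul', smul_eq_mul, mul_one]
    have h3 : (j (x * cK g)) • (Submodule.Quotient.mk ((1 : R) ⊗ₜ[ℤ] (show P from p)) : BCG c P) =
        (j x) • (Submodule.Quotient.mk (((1 : R) * c (κ g)) ⊗ₜ[ℤ] (show P from p)) : BCG c P) := by
      rw [h2, map_mul, hj, ← Submodule.Quotient.mk_smul, TensorProduct.smul_tmul', smul_eq_mul, one_mul]
    exact h3.trans (congrArg (fun y : BCG c P => j x • y) h1.symm))

theorem ioM_mk (hj : ∀ k, j (cK k) = c (κ k)) (P : ModuleCat.{0} (MonoidAlgebra ℤ H)) (x : S) (p : P) :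
    ioM hj P (Submodule.Quotient.mk (x ⊗ₜ[ℤ] (show (rs κ).obj P from p))) =
      (show (rj j).obj (ModuleCat.of R (BCG c P)) from (Submodule.Quotient.mk (j x ⊗ₜ[ℤ] p) : BCG c P)) := by
  have h2 : ∀ (r : R) (y : P), r • (Submodule.Quotient.mk ((1 : R) ⊗ₜ[ℤ] y) : BCG c P) =
      Submodule.Quotient.mk (r ⊗ₜ[ℤ] y) := by
    intro r y
    rw [← Submodule.Quotient.mk_smul, TensorProduct.smul_tmul', smul_eq_mul, mul_one]
  exact h2 (j x) p

theorem io_nat (hj : ∀ k, j (cK k) = c (κ k)) {P P' : ModuleCat.{0} (MonoidAlgebra ℤ H)} (f : P ⟶ P') :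
    (ioM hj P').comp (bcM cK ((rs κ).map f).hom) =
      ((rj j).map (ModuleCat.ofHom (bcM c f.hom))).hom.comp (ioM hj P) :=
  bc_ind cK fun _ => rfl

/-- from `K` to `H` -/
def io (hj : ∀ k, j (cK k) = c (κ k)) : rs κ ⋙ bcF cK ⟶ bcF c ⋙ rj j where
  app P := (ModuleCat.ofHom (ioM hj P) : ModuleCat.of S (BCG cK ((rs κ).obj P)) ⟶
    ModuleCat.of S ((rj j).obj (ModuleCat.of R (BCG c P))))
  naturality P P' f := by
    ext1
    exact io_nat hj f

variable (cK c)

/-- one summand of the map to `K` -/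
def pa (E : R →+ S) (g : H) (P : ModuleCat.{0} (MonoidAlgebra ℤ H)) :
    (R ⊗[ℤ] P) →ₗ[ℤ] BCG cK ((rs κ).obj P) :=
  ((bcR cK ((rs κ).obj P)).mkQ.restrictScalars ℤ).comp
    (TensorProduct.map ((E.comp (AddMonoidHom.mulRight (c g⁻¹))).toIntLinearMap)
      (show P →ₗ[ℤ] ((rs κ).obj P) from
        (DistribSMul.toAddMonoidHom P (MonoidAlgebra.single g (1 : ℤ) : MonoidAlgebra ℤ H)).toIntLinearMap))

theorem pa_apply (E : R →+ S) (g : H) (P : ModuleCat.{0} (MonoidAlgebra ℤ H)) (x : R) (p : P) :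
    pa cK c E g P (x ⊗ₜ[ℤ] p) = Submodule.Quotient.mk ((E (x * c g⁻¹)) ⊗ₜ[ℤ]
      (show (rs κ).obj P from (MonoidAlgebra.single g (1 : ℤ) : MonoidAlgebra ℤ H) • p)) := rfl

variable {cK c}

theorem pa_inv (hj : ∀ k, j (cK k) = c (κ k)) {E : R →+ S} (hE : ∀ x s, E (x * j s) = E x * s)
    (P : ModuleCat.{0} (MonoidAlgebra ℤ H)) (x : R) (p : P) (k : κ.range) (g : H) :
    pa (κ := κ) cK c E (k * g) P (x ⊗ₜ[ℤ] p) = pa cK c E g P (x ⊗ₜ[ℤ] p) := by
  obtain ⟨_, ⟨k, rfl⟩⟩ := k
  rw [pa_apply, pa_apply]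
  have h1 : (MonoidAlgebra.single (κ k * g) (1 : ℤ) : MonoidAlgebra ℤ H) • p =
      (MonoidAlgebra.single (κ k) (1 : ℤ) : MonoidAlgebra ℤ H) •
        ((MonoidAlgebra.single g (1 : ℤ) : MonoidAlgebra ℤ H) • p) := by
    rw [smul_smul, MonoidAlgebra.single_mul_single, mul_one]
  have h2 := mk_rel cK ((rs κ).obj P) (E (x * c (κ k * g)⁻¹)) k
    (show (rs κ).obj P from (MonoidAlgebra.single g (1 : ℤ) : MonoidAlgebra ℤ H) • p)
  rw [rs_smul] at h2
  show (Submodule.Quotient.mk ((E (x * c (κ k * g)⁻¹)) ⊗ₜ[ℤ]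
      (show (rs κ).obj P from (MonoidAlgebra.single (κ k * g) (1 : ℤ) : MonoidAlgebra ℤ H) • p)) :
        BCG cK ((rs κ).obj P)) = _
  rw [h1]
  refine h2.trans ?_
  congr 2
  rw [← hE, hj, mul_assoc x, ← map_mul]
  congr 3
  group

variable (κ)

/-- the map to `K`, as an additive map -/
def pz [Fintype (Q κ.range)] (hj : ∀ k, j (cK k) = c (κ k)) {E : R →+ S} (hE : ∀ x s, E (x * j s) = E x * s)
    (P : ModuleCat.{0} (MonoidAlgebra ℤ H)) : BCG c P →ₗ[ℤ] BCG cK ((rs κ).obj P) :=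
  (Submodule.liftQ ((bcR c P).restrictScalars ℤ) (∑ q : Q κ.range, pa (κ := κ) cK c E q.out P) (by
    intro z hz
    rw [Submodule.restrictScalars_mem] at hz
    have key : ∀ r : R, (∑ q : Q κ.range, pa (κ := κ) cK c E q.out P) (r • z) = 0 := by
      unfold bcR at hz
      induction hz using Submodule.span_induction with
      | mem z hz =>
        obtain ⟨x, h, p, rfl⟩ := hz
        intro r
        rw [smul_sub, TensorProduct.smul_tmul', TensorProduct.smul_tmul', smul_eq_mul, smul_eq_mul, map_sub,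
          sub_eq_zero, LinearMap.sum_apply, LinearMap.sum_apply]
        have h1 := qsum_mul κ.range (fun g => pa (κ := κ) cK c E g P
          ((r * x) ⊗ₜ[ℤ] ((MonoidAlgebra.single h (1 : ℤ) : MonoidAlgebra ℤ H) • p)))
          (fun k g => pa_inv hj hE P (r * x) _ k g) h⁻¹
        rw [← h1]
        refine Finset.sum_congr rfl fun q _ => ?_
        rw [pa_apply, pa_apply, smul_smul, MonoidAlgebra.single_mul_single, mul_one, inv_mul_cancel_right]
        have e1 : r * (x * c h) * c (q.out)⁻¹ = r * x * c (q.out * h⁻¹)⁻¹ := by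
          rw [mul_inv_rev, inv_inv, map_mul c, ← mul_assoc, ← mul_assoc]
        rw [← e1]
      | zero => intro r; rw [smul_zero, map_zero]
      | add x y _ _ hx hy => intro r; rw [smul_add, map_add, hx, hy, add_zero]
      | smul a x _ hx => intro r; rw [smul_smul]; exact hx _
    have h1 := key 1
    rw [one_smul] at h1
    exact h1)).comp (Submodule.Quotient.restrictScalarsEquiv ℤ (bcR c P)).symm.toLinearMap

theorem pz_mk [Fintype (Q κ.range)] (hj : ∀ k, j (cK k) = c (κ k)) {E : R →+ S}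
    (hE : ∀ x s, E (x * j s) = E x * s) (P : ModuleCat.{0} (MonoidAlgebra ℤ H)) (z : R ⊗[ℤ] P) :
    pz κ hj hE P (Submodule.Quotient.mk z) = ∑ q : Q κ.range, pa (κ := κ) cK c E q.out P z := by
  rw [← LinearMap.sum_apply]
  rfl

theorem pz_smul [Fintype (Q κ.range)] (hj : ∀ k, j (cK k) = c (κ k)) {E : R →+ S}
    (hE : ∀ x s, E (x * j s) = E x * s) (hE' : ∀ s x, E (j s * x) = s * E x)
    (P : ModuleCat.{0} (MonoidAlgebra ℤ H)) (s : S) (m : BCG c P) :
    pz κ hj hE P (j s • m) = s • pz κ hj hE P m := by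
  obtain ⟨z, rfl⟩ := Submodule.Quotient.mk_surjective _ m
  induction z using TensorProduct.induction_on with
  | zero => simp
  | tmul x p =>
    rw [← Submodule.Quotient.mk_smul, TensorProduct.smul_tmul', smul_eq_mul, pz_mk, pz_mk, Finset.smul_sum]
    refine Finset.sum_congr rfl fun q _ => ?_
    rw [pa_apply, pa_apply, mul_assoc, hE', ← Submodule.Quotient.mk_smul, TensorProduct.smul_tmul', smul_eq_mul]
  | add x y hx hy =>
    rw [Submodule.Quotient.mk_add, smul_add, map_add, map_add, smul_add, hx, hy]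

/-- the map to `K` -/
def pM [Fintype (Q κ.range)] (hj : ∀ k, j (cK k) = c (κ k)) {E : R →+ S} (hE : ∀ x s, E (x * j s) = E x * s)
    (hE' : ∀ s x, E (j s * x) = s * E x) (P : ModuleCat.{0} (MonoidAlgebra ℤ H)) :
    ((rj j).obj (ModuleCat.of R (BCG c P))) →ₗ[S] BCG cK ((rs κ).obj P) where
  toFun m := pz κ hj hE P m
  map_add' a b := map_add (pz κ hj hE P) a b
  map_smul' s m := pz_smul κ hj hE hE' P s m

/-- every additive statement about `BCG` can be checked on the generators -/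
theorem bcg_ind {P : Type} [AddCommGroup P] [Module (MonoidAlgebra ℤ H) P] {M : Type} [AddCommGroup M]
    (f g : BCG c P →+ M) (h : ∀ (x : R) (p : P), f (Submodule.Quotient.mk (x ⊗ₜ[ℤ] p)) =
      g (Submodule.Quotient.mk (x ⊗ₜ[ℤ] p))) (m : BCG c P) : f m = g m := by
  obtain ⟨z, rfl⟩ := Submodule.Quotient.mk_surjective _ m
  induction z using TensorProduct.induction_on with
  | zero => rw [Submodule.Quotient.mk_zero, map_zero, map_zero]
  | tmul x p => exact h x p
  | add x y hx hy => rw [Submodule.Quotient.mk_add, map_add, map_add, hx, hy]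

theorem pz_nat [Fintype (Q κ.range)] (hj : ∀ k, j (cK k) = c (κ k)) {E : R →+ S}
    (hE : ∀ x s, E (x * j s) = E x * s) {P P' : ModuleCat.{0} (MonoidAlgebra ℤ H)} (f : P ⟶ P') (m : BCG c P) :
    pz κ hj hE P' (bcM c f.hom m) = bcM cK ((rs κ).map f).hom (pz κ hj hE P m) := by
  refine bcg_ind ((pz κ hj hE P').toAddMonoidHom.comp (bcM c f.hom).toAddMonoidHom)
    ((bcM cK ((rs κ).map f).hom).toAddMonoidHom.comp (pz κ hj hE P).toAddMonoidHom) (fun x p => ?_) m
  show pz κ hj hE P' (bcM c f.hom (Submodule.Quotient.mk (x ⊗ₜ[ℤ] p))) =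
    bcM cK ((rs κ).map f).hom (pz κ hj hE P (Submodule.Quotient.mk (x ⊗ₜ[ℤ] p)))
  rw [bcM_mk, pz_mk, pz_mk, map_sum]
  refine Finset.sum_congr rfl fun q _ => ?_
  rw [pa_apply, pa_apply]
  refine Eq.trans ?_ (bcM_mk _ _ _ _).symm
  congr 2
  exact (map_smul f.hom _ _).symm

/-- the map to `K`, as a natural transformation -/
def pn [Fintype (Q κ.range)] (hj : ∀ k, j (cK k) = c (κ k)) {E : R →+ S} (hE : ∀ x s, E (x * j s) = E x * s)
    (hE' : ∀ s x, E (j s * x) = s * E x) : bcF c ⋙ rj j ⟶ rs κ ⋙ bcF cK where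
  app P := (ModuleCat.ofHom (pM κ hj hE hE' P) : ModuleCat.of S ((rj j).obj (ModuleCat.of R (BCG c P))) ⟶
    ModuleCat.of S (BCG cK ((rs κ).obj P)))
  naturality P P' f := by
    ext1
    exact LinearMap.ext fun m => pz_nat κ hj hE f m

theorem pn_io [Fintype (Q κ.range)] (hj : ∀ k, j (cK k) = c (κ k)) {E : R →+ S} (hE : ∀ x s, E (x * j s) = E x * s)
    (hE' : ∀ s x, E (j s * x) = s * E x)
    (hrec : ∀ y, ∑ q : Q κ.range, j (E (y * c q.out⁻¹)) * c q.out = y) :
    pn κ hj hE hE' ≫ io hj = 𝟙 _ := by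
  ext P : 2
  ext1
  refine LinearMap.ext fun m => ?_
  have h1 : ∀ m : BCG c P, ioM hj P (pz κ hj hE P m) = (show (rj j).obj (ModuleCat.of R (BCG c P)) from m) := by
    intro m
    refine bcg_ind ((ioM hj P).toAddMonoidHom.comp (pz κ hj hE P).toAddMonoidHom)
      (AddMonoidHom.id (BCG c P)) (fun x p => ?_) m
    show ioM hj P (pz κ hj hE P (Submodule.Quotient.mk (x ⊗ₜ[ℤ] p))) = _
    rw [pz_mk, map_sum]
    have h2 : ∀ q : Q κ.range, ioM hj P (pa (κ := κ) cK c E q.out P (x ⊗ₜ[ℤ] p)) =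
        (show (rj j).obj (ModuleCat.of R (BCG c P)) from
          (Submodule.Quotient.mk ((j (E (x * c q.out⁻¹)) * c q.out) ⊗ₜ[ℤ] p) : BCG c P)) := by
      intro q
      rw [pa_apply]
      exact (ioM_mk hj P _ _).trans (mk_rel c P _ _ _)
    rw [Finset.sum_congr rfl fun q _ => h2 q]
    have h3 : (∑ q : Q κ.range, (Submodule.Quotient.mk ((j (E (x * c q.out⁻¹)) * c q.out) ⊗ₜ[ℤ] p) : BCG c P)) =
        Submodule.Quotient.mk (x ⊗ₜ[ℤ] p) := by
      have h4 := map_sum (bcR c P).mkQ (fun q : Q κ.range => (j (E (x * c q.out⁻¹)) * c q.out) ⊗ₜ[ℤ] p) Finset.univ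
      refine h4.symm.trans ?_
      rw [← TensorProduct.sum_tmul, hrec]
      rfl
    exact h3
  exact h1 m

/-- the derived functors and the restriction of scalars -/
theorem rder (F : ModuleCat.{0} (MonoidAlgebra ℤ H) ⥤ ModuleCat.{0} R) [F.Additive]
    (n : ℕ) (Z : ModuleCat.{0} (MonoidAlgebra ℤ H)) :
    Nonempty (((F ⋙ rj j).leftDerived n).obj Z ≅ (rj j).obj ((F.leftDerived n).obj Z)) := by
  let P := projectiveResolution Z
  let S0 := ((F.mapHomologicalComplex _).obj P.complex).sc n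
  exact ⟨P.isoLeftDerivedObj (F ⋙ rj j) n ≪≫ S0.mapHomologyIso (rj j) ≪≫
    (rj j).mapIso (P.isoLeftDerivedObj F n).symm⟩

/-- **Shapiro's lemma for the coefficients**: the homology of `H` with coefficients in `R` embeds into the homology of
`K` with coefficients in `S`. -/
theorem sha [Fintype (Q κ.range)] (hκ : Function.Injective κ) (hj : ∀ k, j (cK k) = c (κ k)) {E : R →+ S}
    (hE : ∀ x s, E (x * j s) = E x * s) (hE' : ∀ s x, E (j s * x) = s * E x)
    (hrec : ∀ y, ∑ q : Q κ.range, j (E (y * c q.out⁻¹)) * c q.out = y) (n : ℕ) :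
    ∃ f : ((bcF c).leftDerived n).obj (trivG H) →+ ((bcF cK).leftDerived n).obj (trivG K),
      Function.Injective f ∧ ∀ (s : S) m, f (j s • m) = s • f m := by
  obtain ⟨e1⟩ := lder κ hκ (bcF cK) n (trivG H)
  obtain ⟨e3⟩ := rder (j := j) (bcF c) n (trivG H)
  have h1 : NatTrans.leftDerived (pn κ hj hE hE') n ≫ NatTrans.leftDerived (io hj) n = 𝟙 _ := by
    rw [← NatTrans.leftDerived_comp, pn_io κ hj hE hE' hrec, NatTrans.leftDerived_id]
  have h2 := congrArg (fun t => t.app (trivG H)) h1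
  let e2 : (rs κ).obj (trivG H) ≅ trivG K := LinearEquiv.toModuleIso (trivE κ)
  let g : (rj j).obj (((bcF c).leftDerived n).obj (trivG H)) ⟶ ((bcF cK).leftDerived n).obj (trivG K) :=
    e3.inv ≫ (NatTrans.leftDerived (pn κ hj hE hE') n).app (trivG H) ≫ e1.hom ≫
      ((bcF cK).leftDerived n).map e2.hom
  have hmono : Mono ((NatTrans.leftDerived (pn κ hj hE hE') n).app (trivG H)) := by
    have : IsSplitMono ((NatTrans.leftDerived (pn κ hj hE hE') n).app (trivG H)) :=
      IsSplitMono.mk' ⟨(NatTrans.leftDerived (io hj) n).app (trivG H), h2⟩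
    infer_instance
  have hg : Mono g := by
    have : Mono (e1.hom ≫ ((bcF cK).leftDerived n).map e2.hom) := inferInstance
    have : Mono ((NatTrans.leftDerived (pn κ hj hE hE') n).app (trivG H) ≫ e1.hom ≫
      ((bcF cK).leftDerived n).map e2.hom) := mono_comp _ _
    exact mono_comp _ _
  refine ⟨g.hom.toAddMonoidHom, (ModuleCat.mono_iff_injective g).1 hg, fun s m => ?_⟩
  exact g.hom.map_smul s m

end

end Pool.Agent.V5helper75.BR
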