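import Pool.Agent.V5helper75.BR.Adj
import Pool.Agent.N496.CV.P_TOP
import Pool.Agent.N496.CV.Stm3
import Pool.Agent.RK.OreMat

/-!
# From the vanishing of the reduced `ℓ²`-homology of the Davis complex to `L²`-Betti numbers, in every degree, for the
subgroups of finite index
-/

set_option autoImplicit false
set_option linter.unusedSectionVars false

noncomputable section

namespace Pool.Agent.V5helper75.BR

open Pool.Agent.W907.SG Pool.Agent.W461.SGN Pool.Agent.N496.CV Pool.Agent.N496.LT Pool.Agent.RK
open Pool.Agent.Helper655.VN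

section

variable {V : Type} [Fintype V] [LinearOrder V] {G : SimpleGraph V}

/-- harmonic chains with coefficients in the group von Neumann algebra vanish -/
theorem harm_zero {K : Subgroup (W G)} [K.FiniteIndex] {i : ℕ} (hvan : L2Van G i) {z : Finset V → W G → NG K}
    (hz : IsCh G Set.univ (Eqv K (canL : K →* NG K)) i z) (hb : bdf G z = 0) (hc : cbd G z = 0) : z = 0 := by
  classical
  have hsum : ∀ T : Finset V, Summable fun w : W G => ‖topcf 1 (z T w)‖ ^ 2 := by
    intro T
    obtain ⟨S, hS⟩ := ((inM_iff K (canL : K →* NG K) (z T)).2 (hz.mem T)).fin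
    refine top_sum K S (⊥ : Subgroup (W G × ℤˣ)) (z T) hS ?_ (hz.mem T) (fun w : W G => w) ?_
    · intro p hp w
      rw [Subgroup.mem_bot] at hp
      subst hp
      simp
    · intro w w' p hp p' hp' y h1 h2
      rw [Subgroup.mem_bot] at hp hp'
      subst hp
      subst hp'
      rw [h1, h2]
  have hγ : ∀ T w, topcf 1 (z T w) = 0 := by
    intro T w
    have h0 : ∀ ℓ : ℂ →+ ℝ, (∀ y, |ℓ y| ≤ ‖y‖) → ℓ (topcf 1 (z T w)) = 0 := by
      intro ℓ hℓ
      have key := hvan (fun w T => ℓ (topcf 1 (z T w))) ?_
      · exact congrFun (congrFun key w) T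
      · refine ⟨?_, ?_, ?_, ?_, ?_⟩
        · intro w T hT
          rw [hz.supp T fun h => hT ⟨h.1, h.2.2⟩, Pi.zero_apply, map_zero, map_zero]
        · intro w T t ht
          rw [hz.anti T t ht, map_neg, map_neg]
        · have h1 : ∀ T : Finset V, Summable fun w => (ℓ (topcf 1 (z T w))) ^ 2 := by
            intro T
            refine Summable.of_nonneg_of_le (fun _ => sq_nonneg _) (fun w => ?_) (hsum T)
            rw [← sq_abs]
            exact pow_le_pow_left₀ (abs_nonneg _) (hℓ _) 2
          have h2 : Summable fun x : Finset V × W G => (ℓ (topcf 1 (z x.1 x.2))) ^ 2 := by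
            rw [summable_prod_of_nonneg (fun _ => sq_nonneg _)]
            exact ⟨h1, Summable.of_finite⟩
          exact ((Equiv.prodComm (W G) (Finset V)).summable_iff
            (f := fun x : Finset V × W G => (ℓ (topcf 1 (z x.1 x.2))) ^ 2)).2 h2
        · intro w T
          have h1 := congrArg (fun a => ℓ (topcf (1 : K) a)) (congrFun (congrFun hb T) w)
          simp only [bdf, Pi.zero_apply, map_zero, map_sum, map_zsmul] at h1
          simpa only [zsmul_eq_mul] using h1
        · intro w T hT
          have h1 := congrArg (fun a => ℓ (topcf (1 : K) a)) (congrFun (congrFun hc T) w)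
          simp only [cbd, if_pos hT, Pi.zero_apply, map_zero, map_sum, map_zsmul, map_sub] at h1
          simpa only [zsmul_eq_mul] using h1
    refine Complex.ext ?_ ?_
    · exact h0 Complex.reAddGroupHom (fun y => Complex.abs_re_le_norm y)
    · exact h0 Complex.imAddGroupHom (fun y => Complex.abs_im_le_norm y)
  funext T w
  apply topcf_ext
  intro h
  rw [← topcf_canL, ← hz.mem]
  exact hγ T _

end

/-! ### the parametrisation -/

section par

variable {V : Type} [Fintype V] [LinearOrder V] {G : SimpleGraph V} {R : Type} [Ring R] {K : Subgroup (W G)}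

/-- `K` as a subgroup of the kernel -/
abbrev KK' (K : Subgroup (W G)) : Subgroup (th G).ker := K.subgroupOf (th G).ker

/-- the component in `K` -/
def kq (K : Subgroup (W G)) (g : (th G).ker) : K := ⟨((kp (KK' K) g : (th G).ker) : W G), (kp (KK' K) g).2⟩

theorem kq_mul (g : (th G).ker) : (kq K g : W G) * ((cl (KK' K) g).out : (th G).ker) = g := by
  have h := congrArg (Subgroup.subtype _) (kp_mul (KK' K) g)
  rw [map_mul] at h
  exact h

theorem kq_hmul (hK : K ≤ (th G).ker) (h : K) (g g' : (th G).ker) (e : (g' : W G) = h * g) :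
    cl (KK' K) g' = cl (KK' K) g ∧ kq K g' = h * kq K g := by
  have e' : g' = ((⟨⟨h.1, hK h.2⟩, h.2⟩ : KK' K) : (th G).ker) * g := Subtype.ext e
  rw [e']
  refine ⟨cl_mul _ _ _, ?_⟩
  apply Subtype.ext
  exact congrArg (fun x : KK' K => ((x : (th G).ker) : W G)) (kp_hmul (KK' K) ⟨⟨h.1, hK h.2⟩, h.2⟩ g)

/-- the cells of dimension `n` -/
abbrev Cell (G : SimpleGraph V) (n : ℕ) : Type := {i : (davis G).ι // (davis G).deg i = n}

open Classical in
/-- the extension of a vector -/
def ext (K : Subgroup (W G)) (u : K →* R) (n : ℕ) (x : Cell G n × Q (KK' K) → R) (i : (davis G).ι)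
    (g : (th G).ker) : R :=
  if h : (davis G).deg i = n then x (⟨i, h⟩, cl (KK' K) g) * u (kq K g)⁻¹ else 0

theorem ext_add (u : K →* R) (n : ℕ) (x y : Cell G n × Q (KK' K) → R) :
    ext K u n (x + y) = ext K u n x + ext K u n y := by
  funext i g
  rw [Pi.add_apply, Pi.add_apply]
  unfold ext
  split_ifs with h
  · rw [Pi.add_apply, add_mul]
  · rw [add_zero]

theorem ext_smul (u : K →* R) (n : ℕ) (r : R) (x : Cell G n × Q (KK' K) → R) :
    ext K u n (r • x) = fun i g => r * ext K u n x i g := by
  funext i g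
  unfold ext
  split_ifs with h
  · rw [Pi.smul_apply, smul_eq_mul, mul_assoc]
  · rw [mul_zero]

instance fin_Q [K.FiniteIndex] : Finite (Q K) := by
  have := Subgroup.finite_quotient_of_finiteIndex (H := K)
  exact Finite.of_equiv _ (QuotientGroup.quotientRightRelEquivQuotientLeftRel K).symm

theorem fv_ext (hK : K ≤ (th G).ker) [Finite (Q (KK' K))] (u : K →* R) (n : ℕ) (x : Cell G n × Q (KK' K) → R) :
    FV K u n (ext K u n x) := by
  classical
  have : Fintype (Q (KK' K)) := Fintype.ofFinite _
  refine ⟨fun i hi => ?_, fun i h g g' e => ?_, ?_⟩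
  · funext g
    unfold ext
    rw [dif_neg hi]
    rfl
  · obtain ⟨h1, h2⟩ := kq_hmul hK h g g' e
    unfold ext
    split_ifs with hd
    · rw [h1, h2, mul_inv_rev, map_mul, mul_assoc]
    · rw [zero_mul]
  · refine ⟨Finset.univ.image fun q : Q (KK' K) => q.out, fun i g _ => ⟨kq K g, (cl (KK' K) g).out, ?_, ?_⟩⟩
    · exact Finset.mem_image.2 ⟨_, Finset.mem_univ _, rfl⟩
    · exact (kq_mul g).symm

theorem ext_surj (u : K →* R) (n : ℕ) {v : (davis G).ι → (th G).ker → R} (hv : FV K u n v) :
    ext K u n (fun z => v z.1.1 z.2.out) = v := by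
  funext i g
  unfold ext
  split_ifs with h
  · exact (hv.eqK i (kq K g) _ g (kq_mul g).symm).symm
  · rw [hv.deg i h]
    rfl

theorem ext_inj (u : K →* R) (n : ℕ) {x : Cell G n × Q (KK' K) → R}
    (h : ext K u n x = 0) : x = 0 := by
  funext ⟨⟨i, hi⟩, q⟩
  have h1 := congrFun (congrFun h i) q.out
  unfold ext at h1
  rw [dif_pos hi, cl_out] at h1
  have h2 : u (kq K q.out)⁻¹ * u (kq K q.out) = 1 := by rw [← map_mul, inv_mul_cancel, map_one]
  have h3 := congrArg (fun a => a * u (kq K q.out)) h1
  simp only [Pi.zero_apply, zero_mul] at h3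
  rw [mul_assoc, h2, mul_one] at h3
  exact h3

end par

end Pool.Agent.V5helper75.BR
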